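import Mathlib

/-!
Applicative terms over `I, K, S, D, D₁, D₂` and the semi-equational conditional
term rewriting system `R` of problem MP_a981ee_lc.
-/

namespace Pool.Agent.CLSP

/-- The atomic terms: countably many variables and the six constants `I, K, S, D, D₁, D₂`. -/
inductive Atom : Type
  | var : ℕ → Atom
  | cI : Atom
  | cK : Atom
  | cS : Atom
  | cD : Atom
  | cD1 : Atom
  | cD2 : Atom

/-- Applicative terms: atoms, and the application of two terms. -/
inductive Term : Type
  | atom : Atom → Term
  | app : Term → Term → Term

/-- Juxtaposition `s t` of terms means `Term.app s t`; it associates to the left. -/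
instance : CoeFun Term (fun _ => Term → Term) := ⟨Term.app⟩

/-- The constant `I`. -/
@[match_pattern] abbrev I : Term := Term.atom Atom.cI
/-- The constant `K`. -/
@[match_pattern] abbrev K : Term := Term.atom Atom.cK
/-- The constant `S`. -/
@[match_pattern] abbrev S : Term := Term.atom Atom.cS
/-- The constant `D`. -/
@[match_pattern] abbrev D : Term := Term.atom Atom.cD
/-- The constant `D₁`. -/
@[match_pattern] abbrev D1 : Term := Term.atom Atom.cD1
/-- The constant `D₂`. -/
@[match_pattern] abbrev D2 : Term := Term.atom Atom.cD2

/-- `OneStep C s t`: the term `t` arises from `s` by contracting, in some context, one instance of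
one of the rules (1)-(7), where the condition of an instance of the rules (6) and (7) is read as
`C x y`. -/
inductive OneStep (C : Term → Term → Prop) : Term → Term → Prop
  | rule1 (x : Term) : OneStep C (I x) x
  | rule2 (x y : Term) : OneStep C (K x y) x
  | rule3 (x y z : Term) : OneStep C (S x y z) ((x z) (y z))
  | rule4 (x y : Term) : OneStep C (D1 (D x y)) x
  | rule5 (x y : Term) : OneStep C (D2 (D x y)) y
  | rule6 (x y : Term) : C x y → OneStep C (D (D1 x) (D2 y)) x
  | rule7 (x y : Term) : C x y → OneStep C (D (D1 x) (D2 y)) y
  | left (s s' t : Term) : OneStep C s s' → OneStep C (s t) (s' t)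
  | right (s t t' : Term) : OneStep C t t' → OneStep C (s t) (s t')

/-- The stratified relations `→ₙ` of the semi-equational system `R`: `→₀` is empty and
`→ₙ₊₁` is the closure under contexts of the rule instances whose condition `x ↔* y`
holds for `→ₙ`; here `↔*` is the equivalence closure. -/
def level : ℕ → Term → Term → Prop
  | 0 => fun _ _ => False
  | n + 1 => OneStep (Relation.EqvGen (level n))

/-- The one-step relation `→` of `R`: the union of the relations `→ₙ`. -/
def Step (s t : Term) : Prop := ∃ n, level n s t

end Pool.Agent.CLSP
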