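import Pool.Agent.CLSP.Par

namespace Pool.Agent.CLSP

open Relation

/-- Terms which are instances of the left-hand side of one of the rules (1)-(5). -/
inductive Redex : Term → Prop
  | rI (x) : Redex (I x)
  | rK (x y) : Redex (K x y)
  | rS (x y z) : Redex (S x y z)
  | rD1 (x y) : Redex (D1 (D x y))
  | rD2 (x y) : Redex (D2 (D x y))

theorem Par.inv_app {s r t} (h : Par false (s r) t) (hn : ¬ Redex (s r)) :
    ∃ s' r', t = s' r' ∧ Par true s s' ∧ Par false r r' := by
  cases h with
  | app h1 h2 => exact ⟨_, _, rfl, h1, h2⟩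
  | rI h => exact absurd (.rI _) hn
  | rK y h => exact absurd (.rK _ _) hn
  | rS h1 h2 h3 => exact absurd (.rS _ _ _) hn
  | rD1 y h => exact absurd (.rD1 _ _) hn
  | rD2 y h => exact absurd (.rD2 _ _) hn

/-- Instances of the rule (6) which may be contracted at an active position. -/
def SPRedex (t : Term) : Prop := ∃ x y, t = D (D1 x) (D2 y) ∧ FP x ∧ FP y ∧ Thy x y

theorem Par.inv_pair_true {p q t} (h : Par true (D p q) t) (hn : ¬ SPRedex (D p q)) :
    ∃ p' q', t = D p' q' ∧ Par true p p' ∧ Par true q q' := by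
  cases h with
  | app h1 h2 =>
    obtain ⟨_, rfl, h3⟩ := h1.inv_D
    exact ⟨_, _, rfl, h3.up, h2.up⟩
  | pair h1 h2 => exact ⟨_, _, rfl, h1, h2⟩
  | sp a b c d => exact absurd ⟨_, _, rfl, a, b, c⟩ hn

def size : Term → ℕ
  | .atom _ => 1
  | .app s t => size s + size t + 1

theorem dev_atom (m a) : Dev m (.atom a) (.atom a) := by
  intro t' h; rw [h.inv_atom]; exact .atom _ _

theorem dev_I {x u} (m) (h : Dev false x u) : Dev m (I x) u := by
  intro t' h'
  cases h' with
  | app h1 h2 => cases h1; exact .rI (h _ h2)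
  | rI h1 => exact (h _ h1).up

theorem dev_K {x u} (m y) (h : Dev false x u) : Dev m (K x y) u := by
  intro t' h'
  cases h' with
  | app h1 h2 =>
    obtain ⟨_, rfl, h3⟩ := h1.inv_K
    exact .rK _ (h _ h3)
  | rK _ h1 => exact (h _ h1).up

theorem dev_S {x u y v z w} (m) (hx : Dev false x u) (hy : Dev false y v) (hz : Dev false z w) :
    Dev m (S x y z) ((u w) (v w)) := by
  intro t' h'
  cases h' with
  | app h1 h2 =>
    obtain ⟨_, _, rfl, h3, h4⟩ := h1.inv_S2
    exact .rS (hx _ h3) (hy _ h4) (hz _ h2)
  | rS h1 h2 h3 => 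
    exact .app (.app (hx _ h1).up (hz _ h3)) (.app (hy _ h2).up (hz _ h3))

theorem dev_D1 {x u} (m y) (hx : Dev false x u) : Dev m (D1 (D x y)) u := by
  intro t' h'
  cases h' with
  | app h1 h2 =>
    cases h1
    obtain ⟨_, _, rfl, h3, h4⟩ := h2.inv_pair
    exact .rD1 _ (hx _ h3)
  | rD1 _ h1 => exact (hx _ h1).up

theorem dev_D2 {y v} (m x) (hy : Dev false y v) : Dev m (D2 (D x y)) v := by
  intro t' h'
  cases h' with
  | app h1 h2 =>
    cases h1
    obtain ⟨_, _, rfl, h3, h4⟩ := h2.inv_pair
    exact .rD2 _ (hy _ h4)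
  | rD2 _ h1 => exact (hy _ h1).up

theorem dev_app {s r u v} (hs : Dev true s u) (hr : Dev false r v) (hn : ¬ Redex (s r)) :
    Dev false (s r) (u v) := by
  intro t' h'
  obtain ⟨s', r', rfl, h1, h2⟩ := h'.inv_app hn
  exact .app (hs _ h1) (hr _ h2)

theorem dev_sp {x y u} (hx : FP x) (hy : FP y) (hxy : Thy x y) (h : Dev false x u) :
    Dev true (D (D1 x) (D2 y)) u := by
  intro t' h'
  cases h' with
  | app h1 h2 =>
    obtain ⟨_, rfl, h3⟩ := h1.inv_D
    obtain ⟨x', rfl, h4⟩ := h3.inv_D1 hx.not_isPair
    obtain ⟨y', rfl, h5⟩ := h2.inv_D2 hy.not_isPair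
    exact .sp (hx.par h4) (hy.par h5) ((h4.thy.symm.trans hxy).trans h5.thy) (h _ h4)
  | pair h1 h2 =>
    obtain ⟨x', rfl, h4⟩ := h1.inv_D1 hx.not_isPair
    obtain ⟨y', rfl, h5⟩ := h2.inv_D2 hy.not_isPair
    exact .sp (hx.par h4) (hy.par h5) ((h4.thy.symm.trans hxy).trans h5.thy) (h _ h4)
  | sp _ _ _ h1 => exact (h _ h1).up

theorem dev_pair {p q u v} (hp : Dev true p u) (hq : Dev true q v) (hn : ¬ SPRedex (D p q)) :
    Dev true (D p q) (D u v) := by
  intro t' h'
  obtain ⟨p', q', rfl, h1, h2⟩ := h'.inv_pair_true hn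
  exact .pair (hp _ h1) (hq _ h2)

theorem exists_dev_aux : ∀ (n : ℕ) (t : Term), size t ≤ n → ∀ m, ∃ u, Dev m t u := by
  intro n
  induction n with
  | zero =>
    intro t ht
    cases t <;> simp [size] at ht
  | succ n ih =>
    intro t ht m
    cases t with
    | atom a => exact ⟨_, dev_atom m a⟩
    | app s r =>
      simp only [size] at ht
      by_cases hR : Redex (s r)
      · generalize he : Term.app s r = q at hR
        cases hR with
        | rI x =>
          cases he
          obtain ⟨u, hu⟩ := ih r (by omega) false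
          exact ⟨u, dev_I _ hu⟩
        | rK x y =>
          cases he
          simp only [size] at ht
          obtain ⟨u, hu⟩ := ih x (by omega) false
          exact ⟨u, dev_K _ _ hu⟩
        | rS x y z =>
          cases he
          simp only [size] at ht
          obtain ⟨u, hu⟩ := ih x (by omega) false
          obtain ⟨v, hv⟩ := ih y (by omega) false
          obtain ⟨w, hw⟩ := ih r (by omega) false
          exact ⟨_, dev_S _ hu hv hw⟩
        | rD1 x y =>
          cases he
          simp only [size] at ht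
          obtain ⟨u, hu⟩ := ih x (by omega) false
          exact ⟨_, dev_D1 _ _ hu⟩
        | rD2 x y =>
          cases he
          simp only [size] at ht
          obtain ⟨u, hu⟩ := ih y (by omega) false
          exact ⟨_, dev_D2 _ _ hu⟩
      · obtain ⟨u, hu⟩ := ih s (by omega) true
        obtain ⟨v, hv⟩ := ih r (by omega) false
        by_cases hP : IsPair (s r)
        · cases m with
          | false => exact ⟨_, dev_app hu hv hR⟩
          | true =>
            obtain ⟨p, q, hpq⟩ := hP
            cases hpq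
            simp only [size] at ht
            by_cases hsp : SPRedex (D p r)
            · obtain ⟨x, y, hxy, h1, h2, h3⟩ := hsp
              cases hxy
              simp only [size] at ht
              obtain ⟨w, hw⟩ := ih x (by omega) false
              exact ⟨_, dev_sp h1 h2 h3 hw⟩
            · obtain ⟨w, hw⟩ := ih p (by omega) true
              obtain ⟨v', hv'⟩ := ih r (by omega) true
              exact ⟨_, dev_pair hw hv' hsp⟩
        · exact ⟨_, (dev_app hu hv hR).up hP m⟩

theorem exists_dev (t : Term) (m : Bool) : ∃ u, Dev m t u := exists_dev_aux _ t le_rfl m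

theorem Par.diamond {m s t u} (h1 : Par m s t) (h2 : Par m s u) : ∃ v, Par m t v ∧ Par m u v := by
  obtain ⟨v, hv⟩ := exists_dev s m
  exact ⟨v, hv _ h1, hv _ h2⟩

/-! ### Iterated parallel reduction -/

/-- Many-step reduction; the mode `true` allows contractions at the root as an active position. -/
def Red (m : Bool) : Term → Term → Prop := ReflTransGen (Par m)

theorem Red.refl (m) (t : Term) : Red m t t := ReflTransGen.refl
theorem Red.trans {m s t u} (h1 : Red m s t) (h2 : Red m t u) : Red m s u :=
  ReflTransGen.trans h1 h2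
theorem Red.single {m s t} (h : Par m s t) : Red m s t := ReflTransGen.single h
theorem Red.tail {m s t u} (h1 : Red m s t) (h2 : Par m t u) : Red m s u :=
  ReflTransGen.tail h1 h2
theorem Red.head {m s t u} (h1 : Par m s t) (h2 : Red m t u) : Red m s u :=
  ReflTransGen.head h1 h2

theorem Red.up {m s t} (h : Red false s t) : Red m s t := by
  induction h with
  | refl => exact Red.refl _ _
  | tail _ h2 ih => exact ih.tail h2.up

theorem Red.toTrue {m s t} (h : Red m s t) : Red true s t := by
  induction h with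
  | refl => exact Red.refl _ _
  | tail _ h2 ih => exact ih.tail h2.toTrue

theorem Red.thy {m s t} (h : Red m s t) : Thy s t := by
  induction h with
  | refl => exact Thy.refl _
  | tail _ h2 ih => exact ih.trans h2.thy

theorem Red.app {m s s' t t'} (h1 : Red true s s') (h2 : Red false t t') :
    Red m (s t) (s' t') := by
  have h3 : Red m (s t) (s' t) := by
    induction h1 with
    | refl => exact Red.refl _ _
    | tail _ h ih => exact ih.tail (.app h (Par.refl _ _))
  have h4 : Red m (s' t) (s' t') := by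
    induction h2 with
    | refl => exact Red.refl _ _
    | tail _ h ih => exact ih.tail (.app (Par.refl _ _) h)
  exact h3.trans h4

theorem Red.right {m t t'} (s : Term) (h : Red false t t') : Red m (s t) (s t') :=
  Red.app (Red.refl _ _) h

theorem Red.left {m s s'} (t : Term) (h : Red true s s') : Red m (s t) (s' t) :=
  Red.app h (Red.refl _ _)

theorem Red.pair {p p' q q'} (h1 : Red true p p') (h2 : Red true q q') :
    Red true (D p q) (D p' q') := by
  have h3 : Red true (D p q) (D p' q) := by
    induction h1 with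
    | refl => exact Red.refl _ _
    | tail _ h ih => exact ih.tail (.pair h (Par.refl _ _))
  have h4 : Red true (D p' q) (D p' q') := by
    induction h2 with
    | refl => exact Red.refl _ _
    | tail _ h ih => exact ih.tail (.pair (Par.refl _ _) h)
  exact h3.trans h4

theorem Red.pairF {m p p' q q'} (h1 : Red false p p') (h2 : Red false q q') :
    Red m (D p q) (D p' q') :=
  Red.app (Red.right _ h1) h2

theorem Red.rI {m} (x) : Red m (I x) x := Red.single (.rI (Par.refl _ _))
theorem Red.rK {m} (x y) : Red m (K x y) x := Red.single (.rK _ (Par.refl _ _))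
theorem Red.rS {m} (x y z) : Red m (S x y z) ((x z) (y z)) :=
  Red.single (.rS (Par.refl _ _) (Par.refl _ _) (Par.refl _ _))
theorem Red.rD1 {m} (x y) : Red m (D1 (D x y)) x := Red.single (.rD1 _ (Par.refl _ _))
theorem Red.rD2 {m} (x y) : Red m (D2 (D x y)) y := Red.single (.rD2 _ (Par.refl _ _))
theorem Red.sp {x y} (hx : FP x) (hy : FP y) (h : Thy x y) : Red true (D (D1 x) (D2 y)) x :=
  Red.single (.sp hx hy h (Par.refl _ _))

theorem Par.strip {m s t u} (h1 : Par m s t) (h2 : Red m s u) :
    ∃ v, Red m t v ∧ Par m u v := by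
  induction h2 with
  | refl => exact ⟨t, Red.refl _ _, h1⟩
  | tail _ h ih =>
    obtain ⟨v, hv1, hv2⟩ := ih
    obtain ⟨w, hw1, hw2⟩ := hv2.diamond h
    exact ⟨w, hv1.tail hw1, hw2⟩

theorem Red.confluent {m s t u} (h1 : Red m s t) (h2 : Red m s u) :
    ∃ v, Red m t v ∧ Red m u v := by
  induction h1 with
  | refl => exact ⟨u, h2, Red.refl _ _⟩
  | tail _ h ih =>
    obtain ⟨v, hv1, hv2⟩ := ih
    obtain ⟨w, hw1, hw2⟩ := h.strip hv1
    exact ⟨w, hw1, hv2.tail hw2⟩

/-- Iterated parallel reduction with the number of steps. -/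
inductive RedN (m : Bool) : ℕ → Term → Term → Prop
  | zero (t) : RedN m 0 t t
  | succ {n s t u} : Par m s t → RedN m n t u → RedN m (n + 1) s u

theorem Red.toN {m s t} (h : Red m s t) : ∃ n, RedN m n s t := by
  induction h using ReflTransGen.head_induction_on with
  | refl => exact ⟨0, .zero _⟩
  | head h _ ih =>
    obtain ⟨n, hn⟩ := ih
    exact ⟨_, .succ h hn⟩

theorem RedN.toRed {m n s t} (h : RedN m n s t) : Red m s t := by
  induction h with
  | zero => exact Red.refl _ _
  | succ h _ ih => exact ih.head h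

theorem RedN.strip1 {m n s t u} (h1 : RedN m n s t) (h2 : Par m s u) :
    ∃ v, Par m t v ∧ RedN m n u v := by
  induction h1 generalizing u with
  | zero => exact ⟨u, h2, .zero _⟩
  | succ h _ ih =>
    obtain ⟨w, hw1, hw2⟩ := h.diamond h2
    obtain ⟨v, hv1, hv2⟩ := ih hw1
    exact ⟨v, hv1, .succ hw2 hv2⟩

theorem RedN.strip {m n s t u} (h1 : RedN m n s t) (h2 : Red m s u) :
    ∃ v, Red m t v ∧ RedN m n u v := by
  induction h2 with
  | refl => exact ⟨t, Red.refl _ _, h1⟩
  | tail _ h ih =>
    obtain ⟨v, hv1, hv2⟩ := ih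
    obtain ⟨w, hw1, hw2⟩ := hv2.strip1 h
    exact ⟨w, hv1.tail hw1, hw2⟩

end Pool.Agent.CLSP
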