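import Pool.Agent.CLSP.Good

namespace Pool.Agent.CLSP

open Relation

/-! ### More inversion lemmas -/

theorem Red.inv_K {m x t} (h : Red m (K x) t) : ∃ x', t = K x' ∧ Red false x x' := by
  induction h with
  | refl => exact ⟨x, rfl, Red.refl _ _⟩
  | tail _ h ih =>
    obtain ⟨x', rfl, h1⟩ := ih
    obtain ⟨x'', rfl, h2⟩ := h.inv_K
    exact ⟨x'', rfl, h1.tail h2⟩

theorem Red.inv_S {m x t} (h : Red m (S x) t) : ∃ x', t = S x' ∧ Red false x x' := by
  induction h with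
  | refl => exact ⟨x, rfl, Red.refl _ _⟩
  | tail _ h ih =>
    obtain ⟨x', rfl, h1⟩ := ih
    obtain ⟨x'', rfl, h2⟩ := h.inv_S
    exact ⟨x'', rfl, h1.tail h2⟩

theorem Red.inv_D {m x t} (h : Red m (D x) t) : ∃ x', t = D x' ∧ Red false x x' := by
  induction h with
  | refl => exact ⟨x, rfl, Red.refl _ _⟩
  | tail _ h ih =>
    obtain ⟨x', rfl, h1⟩ := ih
    obtain ⟨x'', rfl, h2⟩ := h.inv_D
    exact ⟨x'', rfl, h1.tail h2⟩

theorem Red.inv_S2 {m x y t} (h : Red m (S x y) t) :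
    ∃ x' y', t = S x' y' ∧ Red false x x' ∧ Red false y y' := by
  induction h with
  | refl => exact ⟨x, y, rfl, Red.refl _ _, Red.refl _ _⟩
  | tail _ h ih =>
    obtain ⟨x', y', rfl, h1, h2⟩ := ih
    obtain ⟨x'', y'', rfl, h3, h4⟩ := h.inv_S2
    exact ⟨x'', y'', rfl, h1.tail h3, h2.tail h4⟩

/-! ### Upper bounds for compound terms -/

theorem Ub.up {x u} (h : Ub false x u) (hx : ¬ IsPair x) (m) : Ub m x u :=
  fun x' hx' => (h x' (hx'.down hx)).up

theorem PQ.up {W x y} (h : PQ false W x y) (hx : ¬ IsPair x) (hy : ¬ IsPair y) (m) :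
    PQ m W x y := by
  obtain ⟨u, v, hu, hv, h⟩ := h
  exact ⟨u, v, hu.up hx m, hv.up hy m, h⟩

theorem ub_app {x₁ x₂ u v} (h1 : Ub true x₁ u) (h2 : Ub false x₂ v) (hn : ¬ Redex (x₁ x₂)) :
    Ub false (x₁ x₂) (u v) := by
  intro t' h'
  obtain ⟨s', r', rfl, h3, h4⟩ := h'.inv_app hn
  exact Red.app (h1 _ h3) (h2 _ h4)

theorem ub_S {x y z u v w} (hx : Ub false x u) (hy : Ub false y v) (hz : Ub false z w) (m) :
    Ub m (S x y z) ((u w) (v w)) := by
  intro t' h'
  cases h' with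
  | app h1 h2 =>
    obtain ⟨x', y', rfl, h3, h4⟩ := h1.inv_S2
    refine (Red.rS _ _ _).trans ?_
    exact Red.app (Red.app (hx _ h3).toTrue (hz _ h2)) (Red.app (hy _ h4).toTrue (hz _ h2))
  | rS h1 h2 h3 =>
    exact Red.app (Red.app (hx _ h1).toTrue (hz _ h3)) (Red.app (hy _ h2).toTrue (hz _ h3))

theorem ub_pair {p q u v} (hp : Ub true p u) (hq : Ub true q v) (hn : ¬ SPRedex (D p q)) :
    Ub true (D p q) (D u v) := by
  intro t' h'
  obtain ⟨p', q', rfl, h1, h2⟩ := h'.inv_pair_true hn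
  exact Red.pair (hp _ h1) (hq _ h2)

/-- Application of an atom which is stuck. -/
theorem ub_right {a x u} (h : Ub false x u) (m) (hn : ¬ Redex ((Term.atom a) x)) :
    Ub m ((Term.atom a) x) ((Term.atom a) u) := by
  refine Ub.up (ub_app (dev_atom _ _).ub h hn) ?_ m
  rintro ⟨p, q, h⟩
  cases h

theorem not_redex_K (x) : ¬ Redex (K x) := by intro h; cases h
theorem not_redex_S (x) : ¬ Redex (S x) := by intro h; cases h
theorem not_redex_D (x) : ¬ Redex (D x) := by intro h; cases h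
theorem not_redex_S2 (x y) : ¬ Redex (S x y) := by intro h; cases h
theorem not_redex_Pr {i x} (hx : ¬ IsPair x) : ¬ Redex (Pr i x) := by
  cases i
  · intro h
    cases h with
    | rD1 x y => exact hx ⟨_, _, rfl⟩
  · intro h
    cases h with
    | rD2 x y => exact hx ⟨_, _, rfl⟩

theorem ub_Pr {i x u} (h : Ub false x u) (hx : ¬ IsPair x) (m) : Ub m (Pr i x) (Pr i u) := by
  have := not_redex_Pr (i := i) hx
  cases i
  · exact ub_right h m this
  · exact ub_right h m this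

theorem not_isPair_S2 (x y) : ¬ IsPair (S x y) := by rintro ⟨p, q, h⟩; cases h
theorem not_isPair_S1 (x) : ¬ IsPair (S x) := by rintro ⟨p, q, h⟩; cases h
theorem not_isPair_Pr (i x) : ¬ IsPair (Pr i x) := by
  rintro ⟨p, q, h⟩; exact Pr_app_ne_pair _ _ _ _ h

theorem VF_PQ {X V : Term → Term → Prop} {x y} (hV : ∀ x, V x x)
    (ha : ∀ {x₁ y₁ x₂ y₂ : Term}, V x₁ y₁ → V x₂ y₂ → V (x₁ x₂) (y₁ y₂))
    (hX : ∀ u v, X u v → PQ false V u v) (h : VF X x y) (m) : PQ m V x y := by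
  have key : PQ false V x y := by
    induction h with
    | cI => exact ⟨_, _, (dev_atom _ _).ub, (dev_atom _ _).ub, hV _⟩
    | cK => exact ⟨_, _, (dev_atom _ _).ub, (dev_atom _ _).ub, hV _⟩
    | cS => exact ⟨_, _, (dev_atom _ _).ub, (dev_atom _ _).ub, hV _⟩
    | cD => exact ⟨_, _, (dev_atom _ _).ub, (dev_atom _ _).ub, hV _⟩
    | cD1 => exact ⟨_, _, (dev_atom _ _).ub, (dev_atom _ _).ub, hV _⟩
    | cD2 => exact ⟨_, _, (dev_atom _ _).ub, (dev_atom _ _).ub, hV _⟩
    | K1 h =>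
      obtain ⟨u, v, hu, hv, huv⟩ := hX _ _ h
      exact ⟨_, _, ub_right hu _ (not_redex_K _), ub_right hv _ (not_redex_K _), ha (hV _) huv⟩
    | S1 h =>
      obtain ⟨u, v, hu, hv, huv⟩ := hX _ _ h
      exact ⟨_, _, ub_right hu _ (not_redex_S _), ub_right hv _ (not_redex_S _), ha (hV _) huv⟩
    | S2 h h' =>
      obtain ⟨u, v, hu, hv, huv⟩ := hX _ _ h
      obtain ⟨u', v', hu', hv', huv'⟩ := hX _ _ h'
      exact ⟨_, _, ub_app (ub_right hu _ (not_redex_S _)) hu' (not_redex_S2 _ _),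
        ub_app (ub_right hv _ (not_redex_S _)) hv' (not_redex_S2 _ _), ha (ha (hV _) huv) huv'⟩
    | Da h =>
      obtain ⟨u, v, hu, hv, huv⟩ := hX _ _ h
      exact ⟨_, _, ub_right hu _ (not_redex_D _), ub_right hv _ (not_redex_D _), ha (hV _) huv⟩
    | Pra h ih =>
      obtain ⟨u, v, hu, hv, huv⟩ := ih
      exact ⟨_, _, ub_Pr hu h.fp_left.not_isPair _, ub_Pr hv h.fp_right.not_isPair _,
        ha (hV _) huv⟩
  exact key.up h.fp_left.not_isPair h.fp_right.not_isPair m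

theorem VF.thy {X : Term → Term → Prop} {x y} (hX : ∀ u v, X u v → Thy u v) (h : VF X x y) :
    Thy x y :=
  VF.rel (W := Thy) Thy.refl Thy.app (h.mono hX)

/-! ### The extension of a relation -/

inductive Ext (W : Term → Term → Prop) : ℕ → Term → Term → Prop
  | atom (n a) : Ext W n (.atom a) (.atom a)
  | app {n} {x₁ y₁ x₂ y₂ : Term} : Ext W n x₁ y₁ → Ext W n x₂ y₂ →
      Ext W (n + 1) (x₁ x₂) (y₁ y₂)
  | node {n x y} : Node W x y → Ext W n x y

def EV (W : Term → Term → Prop) (x y : Term) : Prop := ∃ n, Ext W n x y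

theorem Ext.succ {W n x y} (h : Ext W n x y) : Ext W (n + 1) x y := by
  induction h with
  | atom => exact .atom _ _
  | app _ _ ih1 ih2 => exact .app ih1 ih2
  | node h => exact .node h

theorem Ext.mono {W n m x y} (h : Ext W n x y) (hnm : n ≤ m) : Ext W m x y := by
  induction hnm with
  | refl => exact h
  | step _ ih => exact ih.succ

theorem Ext.symm {W n x y} (hW : ∀ u v, W u v → W v u) (h : Ext W n x y) : Ext W n y x := by
  induction h with
  | atom => exact .atom _ _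
  | app _ _ ih1 ih2 => exact .app ih1 ih2
  | node h => exact .node (h.symm hW)

theorem EV.symm {W} (hW : ∀ u v, W u v → W v u) : ∀ x y, EV W x y → EV W y x := by
  rintro x y ⟨n, h⟩
  exact ⟨n, h.symm hW⟩

theorem EV.app {W} {x₁ y₁ x₂ y₂ : Term} (h1 : EV W x₁ y₁) (h2 : EV W x₂ y₂) :
    EV W (x₁ x₂) (y₁ y₂) := by
  obtain ⟨n, h1⟩ := h1
  obtain ⟨m, h2⟩ := h2
  exact ⟨_, .app (h1.mono (le_max_left n m)) (h2.mono (le_max_right n m))⟩

theorem EV.refl {W} (x : Term) : EV W x x := by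
  induction x with
  | atom a => exact ⟨0, .atom _ _⟩
  | app s t ih1 ih2 => exact EV.app ih1 ih2

theorem Node.thy {W : Term → Term → Prop} {x y} (hW : ∀ u v, W u v → Thy u v)
    (h : Node W x y) : Thy x y := by
  obtain ⟨p, q, p', q', h1, h2, h3, h4, h5, h6⟩ := h
  have e1 : Thy (D1 x) (D1 y) := (h1.thy.trans (hW _ _ h5)).trans h3.thy.symm
  have e2 : Thy (D2 x) (D2 y) := (h2.thy.trans (hW _ _ h6)).trans h4.thy.symm
  exact ((Thy.sp x).symm.trans (Thy.app (Thy.app (Thy.refl _) e1) e2)).trans (Thy.sp y)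

theorem Ext.thy {W : Term → Term → Prop} {n x y} (hW : ∀ u v, W u v → Thy u v)
    (h : Ext W n x y) : Thy x y := by
  induction h with
  | atom => exact Thy.refl _
  | app _ _ ih1 ih2 => exact Thy.app ih1 ih2
  | node h => exact h.thy hW

theorem Good.toNode {W} (hW : Good W) {x y} (h : W x y) : Node W x y :=
  ⟨_, _, _, _, Red.refl _ _, Red.refl _ _, Red.refl _ _, Red.refl _ _,
    hW.app (hW.refl _) h, hW.app (hW.refl _) h⟩

theorem Good.toEV {W} (hW : Good W) {x y} (h : W x y) : EV W x y := ⟨0, .node (hW.toNode h)⟩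

/-- Relations smaller than `Ext W n`. -/
def XR (W : Term → Term → Prop) (n : ℕ) (u v : Term) : Prop := W u v ∨ ∃ m, m < n ∧ Ext W m u v

theorem XR.mono {W n m u v} (h : XR W n u v) (hnm : n ≤ m) : XR W m u v := by
  rcases h with h | ⟨k, hk, h⟩
  · exact Or.inl h
  · exact Or.inr ⟨k, lt_of_lt_of_le hk hnm, h⟩

theorem XR.symm {W n u v} (hW : ∀ u v, W u v → W v u) (h : XR W n u v) : XR W n v u := by
  rcases h with h | ⟨k, hk, h⟩
  · exact Or.inl (hW _ _ h)
  · exact Or.inr ⟨k, hk, h.symm hW⟩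

theorem XR.thy {W : Term → Term → Prop} {n u v} (hW : ∀ u v, W u v → Thy u v)
    (h : XR W n u v) : Thy u v := by
  rcases h with h | ⟨k, hk, h⟩
  · exact hW _ _ h
  · exact h.thy hW

theorem Node.sync {W} (hW : Good W) {x y} (h : Node W x y) (hx : FP x) : Sync W x y := by
  intro l
  have hxn := hx.not_pairable
  rcases List.eq_nil_or_concat l with rfl | ⟨l', i, rfl⟩
  · -- the empty sequence
    by_cases hy : Pairable y
    · obtain ⟨p', q', p, q, h1, h2, h3, h4, h5⟩ := (h.symm hW.symm).adjust hW hy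
      obtain ⟨x₁, rfl, hx₁⟩ := Red.inv_Pr (i := false) h2 hxn
      obtain ⟨x₂, rfl, hx₂⟩ := Red.inv_Pr (i := true) h3 hxn
      have f1 : FP (Pr false x₁) := (hx.red hx₁).pr _
      have f2 : FP (Pr true x₂) := (hx.red hx₂).pr _
      obtain ⟨a, a', ha1, ha2, ha3⟩ := hW.sync (hW.symm _ _ h4) f1 []
      obtain ⟨b, b', hb1, hb2, hb3⟩ := hW.sync (hW.symm _ _ h5) f2 []
      obtain ⟨x₃, rfl, hx₃⟩ := Red.inv_Pr (i := false) ha1 ((hx.red hx₁).not_pairable)
      obtain ⟨x₄, rfl, hx₄⟩ := Red.inv_Pr (i := true) hb1 ((hx.red hx₂).not_pairable)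
      have key : ∀ (i : Bool) (s t : Term), VF W (Pr i s) t → ∃ t', t = Pr i t' ∧ VF W s t' := by
        intro i s t hst
        generalize he : Term.app (Pr i) s = s' at hst
        cases i <;> cases hst with
        | Pra h => rename_i j _ _; cases j <;> cases he <;> exact ⟨_, rfl, h⟩
        | _ => cases he
      obtain ⟨a'', rfl, ha4⟩ := key _ _ _ ha3
      obtain ⟨b'', rfl, hb4⟩ := key _ _ _ hb3
      refine ⟨x₃, a'', hx₁.trans hx₃, ?_, ha4⟩
      have g1 : Thy a'' b'' := by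
        have t1 := VF.thy (fun u v => hW.thy) ha4
        have t2 := VF.thy (fun u v => hW.thy) hb4
        have t3 : Thy x x₃ := (hx₁.trans hx₃).thy
        have t4 : Thy x x₄ := (hx₂.trans hx₄).thy
        exact ((t1.symm.trans t3.symm).trans t4).trans t2
      refine (h1.toTrue.trans (Red.pair ha2 hb2)).trans ?_
      exact Red.sp ha4.fp_right hb4.fp_right g1
    · obtain ⟨p, q, p', q', h1, h2, h3, h4, h5, h6⟩ := h
      obtain ⟨x₁, rfl, hx₁⟩ := Red.inv_Pr (i := false) h1 hxn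
      obtain ⟨y₁, rfl, hy₁⟩ := Red.inv_Pr (i := false) h3 hy
      have f1 : FP (Pr false x₁) := (hx.red hx₁).pr _
      obtain ⟨a, a', ha1, ha2, ha3⟩ := hW.sync h5 f1 []
      obtain ⟨x₃, rfl, hx₃⟩ := Red.inv_Pr (i := false) ha1 ((hx.red hx₁).not_pairable)
      have hy₁' : ¬ Pairable y₁ := fun h' => hy (h'.of_red hy₁)
      obtain ⟨y₂, he, hy₂⟩ := Red.inv_Pr (i := false) ha2 hy₁'
      simp only [Ds] at he
      subst he
      have ha4 : VF W x₃ y₂ := by
        generalize he : Term.app (Pr false) x₃ = s' at ha3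
        generalize he' : Term.app (Pr false) y₂ = t' at ha3
        cases ha3 with
        | Pra h => rename_i j _ _; cases j <;> cases he <;> cases he' <;> exact h
        | _ => cases he
      exact ⟨x₃, y₂, hx₁.trans hx₃, (hy₁.trans hy₂).toTrue, ha4⟩
  · obtain ⟨p, q, p', q', h1, h2, h3, h4, h5, h6⟩ := h
    have gen : ∀ (i : Bool) (p p' : Term), Red false (Pr i x) p → Red false (Pr i y) p' →
        W p p' → ∃ x' y', Red false x x' ∧ Red true (Ds (l' ++ [i]) y) (Ds (l' ++ [i]) y') ∧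
          VF W x' y' := by
      intro i p p' h1 h3 h5
      obtain ⟨x₁, rfl, hx₁⟩ := Red.inv_Pr h1 hxn
      have f1 : FP (Pr i x₁) := (hx.red hx₁).pr _
      obtain ⟨a, a', ha1, ha2, ha3⟩ := hW.sync h5 f1 l'
      obtain ⟨x₃, rfl, hx₃⟩ := Red.inv_Pr ha1 ((hx.red hx₁).not_pairable)
      obtain ⟨y₃, rfl, ha4⟩ : ∃ y₃, a' = Pr i y₃ ∧ VF W x₃ y₃ := by
        generalize he : Term.app (Pr i) x₃ = s' at ha3
        cases i <;> cases ha3 with
        | Pra h => rename_i j _ _; cases j <;> cases he <;> exact ⟨_, rfl, h⟩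
        | _ => cases he
      refine ⟨x₃, y₃, hx₁.trans hx₃, ?_, ha4⟩
      rw [Ds_append, Ds_append]
      exact (Red.dsF l' h3).trans ha2
    rw [List.concat_eq_append]
    cases i
    · exact gen false p p' h1 h3 h5
    · exact gen true q q' h2 h4 h6

end Pool.Agent.CLSP
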