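import Pool.Agent.CLSP.Dev

namespace Pool.Agent.CLSP

open Relation

/-! ### Inversion for many-step reduction -/

def Pairable (t : Term) : Prop := ∃ p q, Red false t (D p q)

theorem Red.inv_atom {m a t} (h : Red m (.atom a) t) : t = .atom a := by
  induction h with
  | refl => rfl
  | tail _ h ih => subst ih; exact h.inv_atom

theorem Red.inv_pair {p q t} (h : Red false (D p q) t) :
    ∃ p' q', t = D p' q' ∧ Red false p p' ∧ Red false q q' := by
  induction h with
  | refl => exact ⟨p, q, rfl, Red.refl _ _, Red.refl _ _⟩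
  | tail _ h ih =>
    obtain ⟨p', q', rfl, h1, h2⟩ := ih
    obtain ⟨p'', q'', rfl, h3, h4⟩ := h.inv_pair
    exact ⟨_, _, rfl, h1.tail h3, h2.tail h4⟩

theorem FP.red {m x x'} (hx : FP x) (h : Red m x x') : FP x' := by
  induction h with
  | refl => exact hx
  | tail _ h ih => exact ih.par h

theorem FP.not_pairable {x} (hx : FP x) : ¬ Pairable x := by
  rintro ⟨p, q, h⟩
  exact (hx.red h).not_isPair ⟨p, q, rfl⟩

theorem Pairable.of_red {s t} (h : Red false s t) (ht : Pairable t) : Pairable s := by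
  obtain ⟨p, q, h'⟩ := ht
  exact ⟨p, q, h.trans h'⟩

theorem Pairable.red {s t} (h : Red false s t) (hs : Pairable s) : Pairable t := by
  obtain ⟨p, q, h'⟩ := hs
  obtain ⟨v, h1, h2⟩ := h.confluent h'
  obtain ⟨p', q', rfl, _, _⟩ := h2.inv_pair
  exact ⟨_, _, h1⟩

theorem not_isPair_of_not_pairable {s} (h : ¬ Pairable s) : ¬ IsPair s := by
  rintro ⟨p, q, rfl⟩
  exact h ⟨p, q, Red.refl _ _⟩

theorem Red.down' {m s t} (h : Red m s t) (hs : ¬ Pairable s) : Red false s t := by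
  induction h with
  | refl => exact Red.refl _ _
  | tail _ h ih =>
    refine ih.tail (h.down ?_)
    exact not_isPair_of_not_pairable (fun h' => hs (h'.of_red ih))

theorem Red.down {m m' s t} (h : Red m s t) (hs : ¬ Pairable s) : Red m' s t :=
  (h.down' hs).up

/-- The projection constants. -/
def Pr : Bool → Term
  | false => D1
  | true => D2

/-- Selection of a component. -/
def sel : Bool → Term → Term → Term
  | false, x, _ => x
  | true, _, y => y

theorem Red.pr {m} (i x y) : Red m (Pr i (D x y)) (sel i x y) := by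
  cases i
  · exact Red.rD1 x y
  · exact Red.rD2 x y

theorem Par.inv_Pr {m i x t} (h : Par m (Pr i x) t) (hx : ¬ IsPair x) :
    ∃ x', t = Pr i x' ∧ Par false x x' := by
  cases i
  · exact h.inv_D1 hx
  · exact h.inv_D2 hx

theorem Red.inv_Pr_aux {i x t} (h : Red false (Pr i x) t) (hx : ¬ Pairable x) :
    ∃ x', t = Pr i x' ∧ Red false x x' := by
  induction h with
  | refl => exact ⟨x, rfl, Red.refl _ _⟩
  | tail _ h ih =>
    obtain ⟨x', rfl, h1⟩ := ih
    obtain ⟨x'', rfl, h2⟩ := h.inv_Pr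
      (not_isPair_of_not_pairable (fun h' => hx (h'.of_red h1)))
    exact ⟨x'', rfl, h1.tail h2⟩

theorem Pr_app_ne_pair (i x p q) : Term.app (Pr i) x ≠ D p q := by
  cases i <;> intro h <;> cases h

theorem not_pairable_Pr {i x} (hx : ¬ Pairable x) : ¬ Pairable (Pr i x) := by
  rintro ⟨p, q, h⟩
  obtain ⟨x', h1, _⟩ := h.inv_Pr_aux hx
  exact Pr_app_ne_pair _ _ _ _ h1.symm

theorem Red.inv_Pr {m i x t} (h : Red m (Pr i x) t) (hx : ¬ Pairable x) :
    ∃ x', t = Pr i x' ∧ Red false x x' :=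
  Red.inv_Pr_aux (h.down' (not_pairable_Pr hx)) hx

/-- Iterated projections. -/
def Ds : List Bool → Term → Term
  | [], x => x
  | i :: l, x => Pr i (Ds l x)

theorem Ds_append (l : List Bool) (i : Bool) (x : Term) : Ds (l ++ [i]) x = Ds l (Pr i x) := by
  induction l with
  | nil => rfl
  | cons j l ih => simp [Ds, ih]

theorem Red.dsF {m x y} (l : List Bool) (h : Red false x y) : Red m (Ds l x) (Ds l y) := by
  cases l with
  | nil => exact h.up
  | cons i l =>
    have aux : ∀ l : List Bool, Red false (Ds l x) (Ds l y) := by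
      intro l
      induction l with
      | nil => exact h
      | cons j l ih => exact Red.right _ ih
    exact Red.right _ (aux l)

theorem not_pairable_Ds {x} (hx : ¬ Pairable x) (l : List Bool) : ¬ Pairable (Ds l x) := by
  induction l with
  | nil => exact hx
  | cons i l ih => exact not_pairable_Pr ih

theorem Red.inv_Ds {m x t} (l : List Bool) (h : Red m (Ds l x) t) (hx : ¬ Pairable x) :
    ∃ x', t = Ds l x' ∧ Red false x x' := by
  induction l generalizing m t with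
  | nil => exact ⟨t, rfl, h.down' hx⟩
  | cons i l ih =>
    obtain ⟨y, rfl, h1⟩ := h.inv_Pr (not_pairable_Ds hx l)
    obtain ⟨x', rfl, h2⟩ := ih h1
    exact ⟨x', rfl, h2⟩

/-! ### Upper bounds of one-step reducts -/

def Ub (m : Bool) (x u : Term) : Prop := ∀ x', Par m x x' → Red m x' u

theorem Ub.red {m x u} (h : Ub m x u) : Red m x u := h x (Par.refl _ _)

theorem Ub.of_red {m x x₁ u} (h : Red m x x₁) (h' : Ub m x₁ u) : Ub m x u := by
  intro x' hx'
  obtain ⟨v, h1, h2⟩ := hx'.strip h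
  exact h1.trans (h' _ h2)

theorem Dev.ub {m x u} (h : Dev m x u) : Ub m x u := fun _ hx' => Red.single (h _ hx')

/-- `x` and `y` have `W`-related upper bounds. -/
def PQ (m : Bool) (W : Term → Term → Prop) (x y : Term) : Prop :=
  ∃ u v, Ub m x u ∧ Ub m y v ∧ W u v

theorem PQ.of_red {m W x x₁ y y₁} (h1 : Red m x x₁) (h2 : Red m y y₁) (h : PQ m W x₁ y₁) :
    PQ m W x y := by
  obtain ⟨u, v, hu, hv, h⟩ := h
  exact ⟨u, v, hu.of_red h1, hv.of_red h2, h⟩

theorem PQ.mono {m W V x y} (hWV : ∀ u v, W u v → V u v) (h : PQ m W x y) : PQ m V x y := by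
  obtain ⟨u, v, hu, hv, h⟩ := h
  exact ⟨u, v, hu, hv, hWV _ _ h⟩

theorem PQ.symm {m W x y} (hW : ∀ u v, W u v → W v u) (h : PQ m W x y) : PQ m W y x := by
  obtain ⟨u, v, hu, hv, h⟩ := h
  exact ⟨v, u, hv, hu, hW _ _ h⟩

/-- Pairs of rigid forms with related arguments. -/
inductive VF (W : Term → Term → Prop) : Term → Term → Prop
  | cI : VF W I I
  | cK : VF W K K
  | cS : VF W S S
  | cD : VF W D D
  | cD1 : VF W D1 D1
  | cD2 : VF W D2 D2
  | K1 {u v} : W u v → VF W (K u) (K v)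
  | S1 {u v} : W u v → VF W (S u) (S v)
  | S2 {u v u' v'} : W u v → W u' v' → VF W (S u u') (S v v')
  | Da {u v} : W u v → VF W (D u) (D v)
  | Pra {i u v} : VF W u v → VF W (Pr i u) (Pr i v)

theorem FP.pr {x} (i) (h : FP x) : FP (Pr i x) := by
  cases i
  · exact .D1a h
  · exact .D2a h

theorem VF.fp_left {W x y} (h : VF W x y) : FP x := by
  induction h with
  | cI => exact .cI
  | cK => exact .cK
  | cS => exact .cS
  | cD => exact .cD
  | cD1 => exact .cD1
  | cD2 => exact .cD2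
  | K1 _ => exact .K1 _
  | S1 _ => exact .S1 _
  | S2 _ _ => exact .S2 _ _
  | Da _ => exact .Da _
  | Pra _ ih => exact .pr _ ih

theorem VF.fp_right {W x y} (h : VF W x y) : FP y := by
  induction h with
  | cI => exact .cI
  | cK => exact .cK
  | cS => exact .cS
  | cD => exact .cD
  | cD1 => exact .cD1
  | cD2 => exact .cD2
  | K1 _ => exact .K1 _
  | S1 _ => exact .S1 _
  | S2 _ _ => exact .S2 _ _
  | Da _ => exact .Da _
  | Pra _ ih => exact .pr _ ih

theorem VF.mono {W V : Term → Term → Prop} {x y} (hWV : ∀ u v, W u v → V u v) (h : VF W x y) :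
    VF V x y := by
  induction h with
  | cI => exact .cI
  | cK => exact .cK
  | cS => exact .cS
  | cD => exact .cD
  | cD1 => exact .cD1
  | cD2 => exact .cD2
  | K1 h => exact .K1 (hWV _ _ h)
  | S1 h => exact .S1 (hWV _ _ h)
  | S2 h h' => exact .S2 (hWV _ _ h) (hWV _ _ h')
  | Da h => exact .Da (hWV _ _ h)
  | Pra _ ih => exact .Pra ih

theorem VF.rel {W : Term → Term → Prop} {x y} (hr : ∀ x, W x x)
    (ha : ∀ {x₁ y₁ x₂ y₂ : Term}, W x₁ y₁ → W x₂ y₂ → W (x₁ x₂) (y₁ y₂)) (h : VF W x y) :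
    W x y := by
  induction h with
  | cI => exact hr _
  | cK => exact hr _
  | cS => exact hr _
  | cD => exact hr _
  | cD1 => exact hr _
  | cD2 => exact hr _
  | K1 h => exact ha (hr _) h
  | S1 h => exact ha (hr _) h
  | S2 h h' => exact ha (ha (hr _) h) h'
  | Da h => exact ha (hr _) h
  | Pra _ ih => exact ha (hr _) ih

/-- Synchronisation of `y` with a rigid form `x`. -/
def Sync (W : Term → Term → Prop) (x y : Term) : Prop :=
  ∀ l : List Bool, ∃ x' y', Red false x x' ∧ Red true (Ds l y) (Ds l y') ∧ VF W x' y'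

structure Good (W : Term → Term → Prop) : Prop where
  refl : ∀ x, W x x
  symm : ∀ x y, W x y → W y x
  app : ∀ {x₁ y₁ x₂ y₂ : Term}, W x₁ y₁ → W x₂ y₂ → W (x₁ x₂) (y₁ y₂)
  thy : ∀ {x y}, W x y → Thy x y
  pq : ∀ m {x y}, W x y → PQ m W x y
  sync : ∀ {x y}, W x y → FP x → Sync W x y

theorem VF_refl {x} {W : Term → Term → Prop} (hW : ∀ x, W x x) (hx : FP x) : VF W x x := by
  induction hx with
  | cI => exact .cI
  | cK => exact .cK
  | cS => exact .cS
  | cD => exact .cD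
  | cD1 => exact .cD1
  | cD2 => exact .cD2
  | K1 _ => exact .K1 (hW _)
  | S1 _ => exact .S1 (hW _)
  | S2 _ _ => exact .S2 (hW _) (hW _)
  | Da _ => exact .Da (hW _)
  | D1a _ ih => exact .Pra (i := false) ih
  | D2a _ ih => exact .Pra (i := true) ih

theorem good_eq : Good Eq where
  refl _ := rfl
  symm _ _ h := h.symm
  app h1 h2 := by rw [h1, h2]
  thy h := h ▸ Thy.refl _
  pq m x y h := by
    subst h
    obtain ⟨u, hu⟩ := exists_dev x m
    exact ⟨u, u, hu.ub, hu.ub, rfl⟩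
  sync {x y} h hx l := by
    subst h
    exact ⟨x, x, Red.refl _ _, Red.refl _ _, VF_refl (fun _ => rfl) hx⟩

theorem Good.redN {W} (hW : Good W) {m n x x₁ y} (h : W x y) (hx : RedN m n x x₁) :
    ∃ x₂ y₂, Red m x₁ x₂ ∧ Red m y y₂ ∧ W x₂ y₂ := by
  induction n generalizing x x₁ y with
  | zero => cases hx; exact ⟨x, y, Red.refl _ _, Red.refl _ _, h⟩
  | succ n ih =>
    cases hx with
    | succ h1 h2 =>
      obtain ⟨u, v, hu, hv, huv⟩ := hW.pq m h
      obtain ⟨w, hw1, hw2⟩ := h2.strip (hu _ h1)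
      obtain ⟨x₂, y₂, h3, h4, h5⟩ := ih huv hw2
      exact ⟨x₂, y₂, hw1.trans h3, hv.red.trans h4, h5⟩

theorem Good.red {W} (hW : Good W) {m x x₁ y} (h : W x y) (hx : Red m x x₁) :
    ∃ x₂ y₂, Red m x₁ x₂ ∧ Red m y y₂ ∧ W x₂ y₂ := by
  obtain ⟨n, hn⟩ := hx.toN
  exact hW.redN h hn

theorem Good.red' {W} (hW : Good W) {m x y y₁} (h : W x y) (hy : Red m y y₁) :
    ∃ x₂ y₂, Red m x x₂ ∧ Red m y₁ y₂ ∧ W x₂ y₂ := by
  obtain ⟨y₂, x₂, h1, h2, h3⟩ := hW.red (hW.symm _ _ h) hy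
  exact ⟨x₂, y₂, h2, h1, hW.symm _ _ h3⟩

/-- `x` and `y` have `W`-related projections. -/
def Node (W : Term → Term → Prop) (x y : Term) : Prop :=
  ∃ p q p' q', Red false (D1 x) p ∧ Red false (D2 x) q ∧ Red false (D1 y) p' ∧
    Red false (D2 y) q' ∧ W p p' ∧ W q q'

theorem Node.symm {W x y} (hW : ∀ u v, W u v → W v u) (h : Node W x y) : Node W y x := by
  obtain ⟨p, q, p', q', h1, h2, h3, h4, h5, h6⟩ := h
  exact ⟨p', q', p, q, h3, h4, h1, h2, hW _ _ h5, hW _ _ h6⟩

theorem Node.adjust {W x y} (hW : Good W) (h : Node W x y) (hx : Pairable x) :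
    ∃ p q p' q', Red false x (D p q) ∧ Red false (D1 y) p' ∧ Red false (D2 y) q' ∧
      W p p' ∧ W q q' := by
  obtain ⟨a, b, hab⟩ := hx
  obtain ⟨p, q, p', q', h1, h2, h3, h4, h5, h6⟩ := h
  have ha : Red false (D1 x) a := (Red.right D1 hab).trans (Red.rD1 _ _)
  have hb : Red false (D2 x) b := (Red.right D2 hab).trans (Red.rD2 _ _)
  obtain ⟨r, hr1, hr2⟩ := ha.confluent h1
  obtain ⟨s, hs1, hs2⟩ := hb.confluent h2
  obtain ⟨p₁, p₁', e1, e2, e3⟩ := hW.red h5 hr2
  obtain ⟨q₁, q₁', f1, f2, f3⟩ := hW.red h6 hs2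
  exact ⟨p₁, q₁, p₁', q₁', hab.trans (Red.pairF (hr1.trans e1) (hs1.trans f1)),
    h3.trans e2, h4.trans f2, e3, f3⟩

theorem Node.adjust2 {W x y} (hW : Good W) (h : Node W x y) (hx : Pairable x)
    (hy : Pairable y) :
    ∃ p q p' q', Red false x (D p q) ∧ Red false y (D p' q') ∧ W p p' ∧ W q q' := by
  obtain ⟨p, q, p', q', h1, h2, h3, h4, h5⟩ := h.adjust hW hx
  have h6 : Node W y x := ⟨p', q', p, q, h2, h3, (Red.right D1 h1).trans (Red.rD1 _ _),
    (Red.right D2 h1).trans (Red.rD2 _ _), hW.symm _ _ h4, hW.symm _ _ h5⟩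
  obtain ⟨a, b, hab⟩ := hy
  have ha : Red false (D1 y) a := (Red.right D1 hab).trans (Red.rD1 _ _)
  have hb : Red false (D2 y) b := (Red.right D2 hab).trans (Red.rD2 _ _)
  obtain ⟨r, hr1, hr2⟩ := ha.confluent h2
  obtain ⟨s, hs1, hs2⟩ := hb.confluent h3
  obtain ⟨p₁, p₁', e1, e2, e3⟩ := hW.red' h4 hr2
  obtain ⟨q₁, q₁', f1, f2, f3⟩ := hW.red' h5 hs2
  exact ⟨p₁, q₁, p₁', q₁', h1.trans (Red.pairF e1 f1),
    hab.trans (Red.pairF (hr1.trans e2) (hs1.trans f2)), e3, f3⟩

end Pool.Agent.CLSP
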