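import Pool.Agent.CLSP.Sim

namespace Pool.Agent.CLSP

open Relation

/-! ### Joinability -/

/-- Many-step reduction of the full system, with the condition decided by `Thy`. -/
def RR : Term → Term → Prop := ReflTransGen (OneStep Thy)

theorem RR.refl (t) : RR t t := ReflTransGen.refl
theorem RR.trans {s t u} (h1 : RR s t) (h2 : RR t u) : RR s u := ReflTransGen.trans h1 h2
theorem RR.single {s t} (h : OneStep Thy s t) : RR s t := ReflTransGen.single h

theorem RR.left {s s'} (t : Term) (h : RR s s') : RR (s t) (s' t) := by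
  induction h with
  | refl => exact RR.refl _
  | tail _ h ih => exact ih.trans (RR.single (.left _ _ _ h))

theorem RR.right {t t'} (s : Term) (h : RR t t') : RR (s t) (s t') := by
  induction h with
  | refl => exact RR.refl _
  | tail _ h ih => exact ih.trans (RR.single (.right _ _ _ h))

theorem RR.app {s s' t t' : Term} (h1 : RR s s') (h2 : RR t t') : RR (s t) (s' t') :=
  (RR.left _ h1).trans (RR.right _ h2)

theorem OneStep.thy {s t} (h : OneStep Thy s t) : Thy s t := by
  induction h with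
  | rule1 x => exact Thy.of (.rule1 x)
  | rule2 x y => exact Thy.of (.rule2 x y)
  | rule3 x y z => exact Thy.of (.rule3 x y z)
  | rule4 x y => exact Thy.of (.rule4 x y)
  | rule5 x y => exact Thy.of (.rule5 x y)
  | rule6 x y h => exact Thy.sp' h
  | rule7 x y h => exact (Thy.sp' h).trans h
  | left s s' t _ ih => exact Thy.left _ ih
  | right s t t' _ ih => exact Thy.right _ ih

theorem RR.thy {s t} (h : RR s t) : Thy s t := by
  induction h with
  | refl => exact Thy.refl _
  | tail _ h ih => exact ih.trans h.thy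

theorem Par.rr {m s t} (h : Par m s t) : RR s t := by
  induction h with
  | atom => exact RR.refl _
  | app _ _ ih1 ih2 => exact RR.app ih1 ih2
  | rI _ ih => exact (RR.single (.rule1 _)).trans ih
  | rK y _ ih => exact (RR.single (.rule2 _ _)).trans ih
  | rS _ _ _ ih1 ih2 ih3 =>
    exact (RR.single (.rule3 _ _ _)).trans (RR.app (RR.app ih1 ih3) (RR.app ih2 ih3))
  | rD1 y _ ih => exact (RR.single (.rule4 _ _)).trans ih
  | rD2 y _ ih => exact (RR.single (.rule5 _ _)).trans ih
  | pair _ _ ih1 ih2 => exact RR.app (RR.app (RR.refl _) ih1) ih2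
  | sp _ _ h _ ih => exact (RR.single (.rule6 _ _ h)).trans ih

theorem Red.rr {m s t} (h : Red m s t) : RR s t := by
  induction h with
  | refl => exact RR.refl _
  | tail _ h ih => exact ih.trans h.rr

theorem RR.inv_atom {a t} (h : RR (.atom a) t) : t = .atom a := by
  induction h with
  | refl => rfl
  | tail _ h ih => subst ih; cases h

theorem RR.ds {x y} (l : List Bool) (h : RR x y) : RR (Ds l x) (Ds l y) := by
  induction l with
  | nil => exact h
  | cons i l ih => exact RR.right _ ih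

theorem Thy.ds {x y} (l : List Bool) (h : Thy x y) : Thy (Ds l x) (Ds l y) := by
  induction l with
  | nil => exact h
  | cons i l ih => exact Thy.right _ ih

/-- Properties used for joinability. -/
structure Joins (W : Term → Term → Prop) : Prop where
  strip : ∀ i {x y}, W (Pr i x) (Pr i y) → ¬ Pairable x → ¬ Pairable y →
    ∃ x' y', Red false x x' ∧ Red false y y' ∧ W x' y'
  join : ∀ {x y}, W x y → ∃ r, RR x r ∧ RR y r
  joinD : ∀ (l : List Bool) {c y}, W (Ds l c) y → ¬ Pairable c → ∃ r, RR c r ∧ RR y (Ds l r)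

theorem joins_eq : Joins Eq where
  strip i x y h _ _ := by
    cases h
    exact ⟨x, x, Red.refl _ _, Red.refl _ _, rfl⟩
  join h := by cases h; exact ⟨_, RR.refl _, RR.refl _⟩
  joinD l c y h _ := by cases h; exact ⟨_, RR.refl _, RR.refl _⟩

theorem Node.strip {W} (hJ : Joins W) {i x y} (h : Node W (Pr i x) (Pr i y))
    (hx : ¬ Pairable x) (hy : ¬ Pairable y) :
    ∃ x' y', Red false x x' ∧ Red false y y' ∧ W x' y' := by
  obtain ⟨p, q, p', q', h1, h2, h3, h4, h5, h6⟩ := h
  have hx1 := not_pairable_Pr (i := i) hx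
  have hy1 := not_pairable_Pr (i := i) hy
  obtain ⟨x₁, rfl, hx₁⟩ := Red.inv_Pr (i := false) h1 hx1
  obtain ⟨y₁, rfl, hy₁⟩ := Red.inv_Pr (i := false) h3 hy1
  obtain ⟨x₂, y₂, e1, e2, e3⟩ := hJ.strip false h5 (fun h' => hx1 (h'.of_red hx₁))
    (fun h' => hy1 (h'.of_red hy₁))
  obtain ⟨x₃, rfl, hx₃⟩ := Red.inv_Pr (hx₁.trans e1) hx
  obtain ⟨y₃, rfl, hy₃⟩ := Red.inv_Pr (hy₁.trans e2) hy
  obtain ⟨x₄, y₄, f1, f2, f3⟩ := hJ.strip i e3 (fun h' => hx (h'.of_red hx₃))
    (fun h' => hy (h'.of_red hy₃))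
  exact ⟨x₄, y₄, hx₃.trans f1, hy₃.trans f2, f3⟩

theorem Node.joinD {W} (hW : Good W) (hJ : Joins W) (l : List Bool) {c y}
    (h : Node W (Ds l c) y) (hc : ¬ Pairable c) : ∃ r, RR c r ∧ RR y (Ds l r) := by
  have hlc := not_pairable_Ds hc l
  by_cases hy : Pairable y
  · obtain ⟨p', q', p, q, h1, h2, h3, h4, h5⟩ := (h.symm hW.symm).adjust hW hy
    obtain ⟨c₁, rfl, hc₁⟩ := Red.inv_Ds (false :: l) h2 hc
    obtain ⟨c₂, rfl, hc₂⟩ := Red.inv_Ds (true :: l) h3 hc
    obtain ⟨r₁, e1, e2⟩ := hJ.joinD (false :: l) (hW.symm _ _ h4) (fun h' => hc (h'.of_red hc₁))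
    obtain ⟨r₂, f1, f2⟩ := hJ.joinD (true :: l) (hW.symm _ _ h5) (fun h' => hc (h'.of_red hc₂))
    refine ⟨r₁, hc₁.rr.trans e1, ?_⟩
    have t1 : Thy r₁ r₂ :=
      ((hc₁.rr.trans e1).thy.symm).trans (hc₂.rr.trans f1).thy
    exact (h1.rr.trans (RR.app (RR.right _ e2) f2)).trans
      (RR.single (.rule6 _ _ (Thy.ds l t1)))
  · obtain ⟨p, q, p', q', h1, h2, h3, h4, h5, h6⟩ := h
    obtain ⟨x₁, rfl, hx₁⟩ := Red.inv_Pr (i := false) h1 hlc
    obtain ⟨y₁, rfl, hy₁⟩ := Red.inv_Pr (i := false) h3 hy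
    obtain ⟨x₂, y₂, e1, e2, e3⟩ := hJ.strip false h5 (fun h' => hlc (h'.of_red hx₁))
      (fun h' => hy (h'.of_red hy₁))
    obtain ⟨c₁, rfl, hc₁⟩ := Red.inv_Ds l (hx₁.trans e1) hc
    obtain ⟨r, f1, f2⟩ := hJ.joinD l e3 (fun h' => hc (h'.of_red hc₁))
    exact ⟨r, hc₁.rr.trans f1, (hy₁.trans e2).rr.trans f2⟩

theorem Ext.joins {W} (hW : Good W) (hJ : Joins W) {n x y} (h : Ext W n x y) :
    (∃ r, RR x r ∧ RR y r) ∧
      ∀ (l : List Bool) (c), x = Ds l c → ¬ Pairable c → ∃ r, RR c r ∧ RR y (Ds l r) := by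
  induction h with
  | atom n a =>
    refine ⟨⟨_, RR.refl _, RR.refl _⟩, ?_⟩
    intro l c he _
    exact ⟨c, RR.refl _, he ▸ RR.refl _⟩
  | @app n x₁ y₁ x₂ y₂ h1 h2 ih1 ih2 =>
    have join : ∃ r, RR (x₁ x₂) r ∧ RR (y₁ y₂) r := by
      obtain ⟨r, hr, hr'⟩ := ih1.1
      obtain ⟨s, hs, hs'⟩ := ih2.1
      exact ⟨_, RR.app hr hs, RR.app hr' hs'⟩
    refine ⟨join, ?_⟩
    intro l c he hc
    cases l with
    | nil =>
      simp only [Ds] at he
      subst he
      exact join
    | cons i l =>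
      simp only [Ds] at he
      injection he with e1 e2
      obtain ⟨r, hr, hr'⟩ := ih2.2 l c e2 hc
      obtain ⟨s, hs, hs'⟩ := ih1.1
      have e3 : s = Pr i := by
        rw [e1] at hs
        cases i
        · exact RR.inv_atom hs
        · exact RR.inv_atom hs
      subst e3
      exact ⟨r, hr, RR.app hs' hr'⟩
  | @node n x y h =>
    refine ⟨?_, ?_⟩
    · by_cases hx : Pairable x
      · by_cases hy : Pairable y
        · obtain ⟨p, q, p', q', h1, h2, h3, h4⟩ := h.adjust2 hW hx hy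
          obtain ⟨r, hr, hr'⟩ := hJ.join h3
          obtain ⟨s, hs, hs'⟩ := hJ.join h4
          exact ⟨D r s, h1.rr.trans (RR.app (RR.right _ hr) hs),
            h2.rr.trans (RR.app (RR.right _ hr') hs')⟩
        · obtain ⟨r, hr, hr'⟩ := Node.joinD hW hJ [] (h.symm hW.symm) hy
          exact ⟨r, hr', hr⟩
      · exact Node.joinD hW hJ [] h hx
    · intro l c he hc
      subst he
      exact Node.joinD hW hJ l h hc

theorem joins_EV {W} (hW : Good W) (hJ : Joins W) : Joins (EV W) where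
  strip := by
    rintro i x y ⟨n, h⟩ hx hy
    generalize hs : Term.app (Pr i) x = s at h
    generalize ht : Term.app (Pr i) y = t at h
    cases h with
    | atom => cases hs
    | app h1 h2 => cases hs; cases ht; exact ⟨x, y, Red.refl _ _, Red.refl _ _, _, h2⟩
    | node h =>
      subst hs; subst ht
      obtain ⟨x', y', h1, h2, h3⟩ := h.strip hJ hx hy
      exact ⟨x', y', h1, h2, hW.toEV h3⟩
  join := by
    rintro x y ⟨n, h⟩
    exact (h.joins hW hJ).1
  joinD := by
    rintro l c y ⟨n, h⟩ hc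
    exact (h.joins hW hJ).2 l c rfl hc

theorem joins_V : ∀ d, Joins (V d)
  | 0 => joins_eq
  | d + 1 => joins_EV (good_V d) (joins_V d)

/-! ### Every equation of the theory is represented -/

def U (x y : Term) : Prop := ∃ d x' y', Red false x x' ∧ Red false y y' ∧ V d x' y'

theorem U.refl (x) : U x x := ⟨0, x, x, Red.refl _ _, Red.refl _ _, rfl⟩

theorem U.exp {x y y₁} (h : U x y) (h' : Red false y₁ y) : U x y₁ := by
  obtain ⟨d, x', y', h1, h2, h3⟩ := h
  exact ⟨d, x', y', h1, h'.trans h2, h3⟩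

theorem U.red {x y y₁} (h : U x y) (h' : Red false y y₁) : U x y₁ := by
  obtain ⟨d, x', y', h1, h2, h3⟩ := h
  obtain ⟨z, e1, e2⟩ := h'.confluent h2
  obtain ⟨x₂, y₂, f1, f2, f3⟩ := (good_V d).red' h3 e2
  exact ⟨d, x₂, y₂, h1.trans f1, e1.trans f2, f3⟩

theorem U.tn {x y y₁} (h : U x y) (h' : TN y₁ y) : U x y₁ := by
  obtain ⟨d, x', y', h1, h2, h3⟩ := h
  obtain ⟨z, e1, e2⟩ := TN.sims h2 h'
  exact ⟨d + 1, x', z, h1, e1, V.comp_TN d h3 e2⟩

theorem U.tt {x y y₁} (h : U x y) (h' : TT y y₁) : U x y₁ := by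
  obtain ⟨d, x', y', h1, h2, h3⟩ := h
  obtain ⟨z, e1, e2⟩ := TT.sims h2 h'
  exact ⟨d + 1, x', z, h1, e1, V.comp_TT d h3 e2⟩

/-- Analysis of an unconditional step. -/
theorem OneStep.analyse {s t} (h : OneStep Eq s t) :
    Red false s t ∨ (TT t s ∧ (TN t s ∨ ∃ w, Red false s w ∧ Red false t w)) := by
  have sp : ∀ x, TT x (D (D1 x) (D2 x)) ∧ (TN x (D (D1 x) (D2 x)) ∨
      ∃ w, Red false (D (D1 x) (D2 x)) w ∧ Red false x w) := by
    intro x
    refine ⟨.node x, ?_⟩
    by_cases hx : Pairable x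
    · obtain ⟨a, b, hab⟩ := hx
      refine Or.inr ⟨D a b, ?_, hab⟩
      exact Red.pairF ((Red.right _ hab).trans (Red.rD1 _ _)) ((Red.right _ hab).trans (Red.rD2 _ _))
    · exact Or.inl (.node hx (Red.refl _ _) (Red.refl _ _))
  induction h with
  | rule1 x => exact Or.inl (Red.rI _)
  | rule2 x y => exact Or.inl (Red.rK _ _)
  | rule3 x y z => exact Or.inl (Red.rS _ _ _)
  | rule4 x y => exact Or.inl (Red.rD1 _ _)
  | rule5 x y => exact Or.inl (Red.rD2 _ _)
  | rule6 x y h => cases h; exact Or.inr (sp x)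
  | rule7 x y h => cases h; exact Or.inr (sp x)
  | left s s' t _ ih =>
    rcases ih with h | ⟨h1, h2⟩
    · exact Or.inl (Red.left _ h.toTrue)
    · refine Or.inr ⟨.app h1 (TT.refl _), ?_⟩
      rcases h2 with h2 | ⟨w, h2, h3⟩
      · exact Or.inl (.app h2 (TN.refl _))
      · exact Or.inr ⟨_, Red.left _ h2.toTrue, Red.left _ h3.toTrue⟩
  | right s t t' _ ih =>
    rcases ih with h | ⟨h1, h2⟩
    · exact Or.inl (Red.right _ h)
    · refine Or.inr ⟨.app (TT.refl _) h1, ?_⟩
      rcases h2 with h2 | ⟨w, h2, h3⟩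
      · exact Or.inl (.app (TN.refl _) h2)
      · exact Or.inr ⟨_, Red.right _ h2, Red.right _ h3⟩

theorem U.step {x s t} (h : OneStep Eq s t) : U x s ↔ U x t := by
  rcases h.analyse with h | ⟨h1, h2⟩
  · exact ⟨fun h' => h'.red h, fun h' => h'.exp h⟩
  · refine ⟨fun h' => ?_, fun h' => h'.tt h1⟩
    rcases h2 with h2 | ⟨w, h2, h3⟩
    · exact h'.tn h2
    · exact (h'.red h2).exp h3

theorem Thy.u {s t} (h : Thy s t) : ∀ x, U x s ↔ U x t := by
  induction h with
  | rel s t h => intro x; exact U.step h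
  | refl s => intro x; exact Iff.rfl
  | symm s t _ ih => intro x; exact (ih x).symm
  | trans s t u _ _ ih1 ih2 => intro x; exact (ih1 x).trans (ih2 x)

theorem Thy.join {s t} (h : Thy s t) : ∃ r, RR s r ∧ RR t r := by
  obtain ⟨d, x, y, h1, h2, h3⟩ := (h.u s).1 (U.refl s)
  obtain ⟨r, e1, e2⟩ := (joins_V d).join h3
  exact ⟨r, h1.rr.trans e1, h2.rr.trans e2⟩

/-! ### The system `R` -/

theorem OneStep.mono {C C' : Term → Term → Prop} (hC : ∀ x y, C x y → C' x y) {s t}
    (h : OneStep C s t) : OneStep C' s t := by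
  induction h with
  | rule1 x => exact .rule1 x
  | rule2 x y => exact .rule2 x y
  | rule3 x y z => exact .rule3 x y z
  | rule4 x y => exact .rule4 x y
  | rule5 x y => exact .rule5 x y
  | rule6 x y h => exact .rule6 x y (hC _ _ h)
  | rule7 x y h => exact .rule7 x y (hC _ _ h)
  | left s s' t _ ih => exact .left _ _ _ ih
  | right s t t' _ ih => exact .right _ _ _ ih

theorem eqvGen_mono {r s : Term → Term → Prop} (h : ∀ x y, r x y → s x y) {x y}
    (hxy : EqvGen r x y) : EqvGen s x y := by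
  induction hxy with
  | rel x y h' => exact .rel _ _ (h _ _ h')
  | refl x => exact .refl _
  | symm x y _ ih => exact .symm _ _ ih
  | trans x y z _ _ ih1 ih2 => exact .trans _ _ _ ih1 ih2

theorem level_thy : ∀ n {s t}, level n s t → OneStep Thy s t := by
  intro n
  induction n with
  | zero => intro s t h; exact h.elim
  | succ n ih =>
    intro s t h
    refine OneStep.mono ?_ h
    intro x y hxy
    induction hxy with
    | rel x y h' => exact (ih h').thy
    | refl x => exact Thy.refl _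
    | symm x y _ ih => exact ih.symm
    | trans x y z _ _ ih1 ih2 => exact ih1.trans ih2

theorem level_two {s t} (h : OneStep Thy s t) : level 2 s t := by
  refine OneStep.mono ?_ h
  intro x y hxy
  refine eqvGen_mono ?_ hxy
  intro x y h
  refine OneStep.mono ?_ h
  intro x y h
  cases h
  exact .refl _

/-- The one-step relation of `R` is the relation with the condition decided by `Thy`. -/
theorem step_iff {s t} : Step s t ↔ OneStep Thy s t :=
  ⟨fun ⟨n, h⟩ => level_thy n h, fun h => ⟨2, level_two h⟩⟩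

theorem confluence {t t₁ t₂ : Term} (h₁ : ReflTransGen Step t t₁) (h₂ : ReflTransGen Step t t₂) :
    ∃ u, ReflTransGen Step t₁ u ∧ ReflTransGen Step t₂ u := by
  have e : Step = OneStep Thy := by
    funext s t
    exact propext step_iff
  rw [e] at h₁ h₂ ⊢
  exact Thy.join ((RR.thy h₁).symm.trans (RR.thy h₂))

end Pool.Agent.CLSP
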