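import Pool.Agent.CLSP.Ext

namespace Pool.Agent.CLSP

open Relation

theorem VF.inv_Pr {W : Term → Term → Prop} {i : Bool} {s t : Term} (h : VF W (Pr i s) t) :
    ∃ t', t = Pr i t' ∧ VF W s t' := by
  generalize he : Term.app (Pr i) s = s' at h
  cases i
  · cases h with
    | Pra h =>
      rename_i j _ _
      cases j
      · cases he; exact ⟨_, rfl, h⟩
      · cases he
    | _ => cases he
  · cases h with
    | Pra h =>
      rename_i j _ _
      cases j
      · cases he
      · cases he; exact ⟨_, rfl, h⟩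
    | _ => cases he

theorem Ext.sync {W} (hW : Good W) {n x y} (h : Ext W n x y) (hx : FP x) :
    Sync (XR W n) x y := by
  induction h with
  | atom n a =>
    intro l
    exact ⟨_, _, Red.refl _ _, Red.refl _ _, VF_refl (fun x => Or.inl (hW.refl x)) hx⟩
  | node h =>
    intro l
    obtain ⟨x', y', h1, h2, h3⟩ := h.sync hW hx l
    exact ⟨x', y', h1, h2, h3.mono (fun _ _ h => Or.inl h)⟩
  | @app n x₁ y₁ x₂ y₂ h1 h2 ih1 ih2 =>
    intro l
    have hX : XR W (n + 1) x₂ y₂ := Or.inr ⟨n, Nat.lt_succ_self n, h2⟩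
    generalize he : Term.app x₁ x₂ = z at hx
    cases hx with
    | K1 x =>
      cases he
      obtain ⟨x', y', e1, e2, e3⟩ := ih1 .cK []
      rw [e1.inv_atom] at e3
      cases e3
      exact ⟨K x₂, K y₂, Red.refl _ _, Red.dsF l (Red.left _ e2), .K1 hX⟩
    | S1 x =>
      cases he
      obtain ⟨x', y', e1, e2, e3⟩ := ih1 .cS []
      rw [e1.inv_atom] at e3
      cases e3
      exact ⟨S x₂, S y₂, Red.refl _ _, Red.dsF l (Red.left _ e2), .S1 hX⟩
    | Da x =>
      cases he
      obtain ⟨x', y', e1, e2, e3⟩ := ih1 .cD []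
      rw [e1.inv_atom] at e3
      cases e3
      exact ⟨D x₂, D y₂, Red.refl _ _, Red.dsF l (Red.left _ e2), .Da hX⟩
    | S2 u v =>
      cases he
      obtain ⟨x', y', e1, e2, e3⟩ := ih1 (.S1 u) []
      obtain ⟨u', rfl, hu⟩ := e1.inv_S
      generalize he' : Term.app S u' = z' at e3
      cases e3 with
      | S1 h =>
        cases he'
        rename_i v'
        exact ⟨S u' x₂, S v' y₂, Red.left _ e1.toTrue, Red.dsF l (Red.left _ e2),
          .S2 (h.mono (Nat.le_succ n)) hX⟩
      | Pra h => rename_i j _ _; cases j <;> cases he'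
      | _ => cases he'
    | D1a hx =>
      cases he
      obtain ⟨x', y', e1, e2, e3⟩ := ih1 .cD1 []
      rw [e1.inv_atom] at e3
      cases e3
      obtain ⟨a, b, f1, f2, f3⟩ := ih2 hx (l ++ [false])
      refine ⟨Pr false a, Pr false b, Red.right _ f1, ?_,
        .Pra (f3.mono (fun _ _ h => h.mono (Nat.le_succ n)))⟩
      rw [Ds_append, Ds_append] at f2
      exact (Red.dsF l (Red.left _ e2)).trans f2
    | D2a hx =>
      cases he
      obtain ⟨x', y', e1, e2, e3⟩ := ih1 .cD2 []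
      rw [e1.inv_atom] at e3
      cases e3
      obtain ⟨a, b, f1, f2, f3⟩ := ih2 hx (l ++ [true])
      refine ⟨Pr true a, Pr true b, Red.right _ f1, ?_,
        .Pra (f3.mono (fun _ _ h => h.mono (Nat.le_succ n)))⟩
      rw [Ds_append, Ds_append] at f2
      exact (Red.dsF l (Red.left _ e2)).trans f2
    | _ => cases he

theorem XR.sync {W} (hW : Good W) {n x y} (h : XR W n x y) (hx : FP x) :
    Sync (XR W n) x y := by
  intro l
  rcases h with h | ⟨m, hm, h⟩
  · obtain ⟨x', y', h1, h2, h3⟩ := hW.sync h hx l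
    exact ⟨x', y', h1, h2, h3.mono (fun _ _ h => Or.inl h)⟩
  · obtain ⟨x', y', h1, h2, h3⟩ := h.sync hW hx l
    exact ⟨x', y', h1, h2, h3.mono (fun _ _ h => h.mono hm.le)⟩

/-- The properties proved by induction on the height. -/
def Cl (V : Term → Term → Prop) (x y : Term) : Prop :=
  (∀ m, PQ m V x y) ∧ ∀ i m, PQ m V (Pr i x) (Pr i y)

theorem Cl.symm {V : Term → Term → Prop} {x y} (hV : ∀ u v, V u v → V v u) (h : Cl V x y) :
    Cl V y x := ⟨fun m => (h.1 m).symm hV, fun i m => (h.2 i m).symm hV⟩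

/-- Heads of redexes. -/
inductive Head : Term → Prop
  | I : Head I
  | K (u) : Head (K u)
  | S (u v) : Head (S u v)
  | Pr (i) : Head (Pr i)

theorem Head.fp {x} (h : Head x) : FP x := by
  cases h with
  | I => exact .cI
  | K u => exact .K1 _
  | S u v => exact .S2 _ _
  | Pr i => cases i <;> constructor

theorem head_of_redex {x₁ x₂ : Term} (h : Redex (x₁ x₂)) : Head x₁ := by
  generalize he : Term.app x₁ x₂ = z at h
  cases h with
  | rI => cases he; exact .I
  | rK => cases he; exact .K _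
  | rS => cases he; exact .S _ _
  | rD1 => cases he; exact .Pr false
  | rD2 => cases he; exact .Pr true

/-- Application with a redex head on the left. -/
theorem app_head {W} (hW : Good W) {n} {x₁ y₁ x₂ y₂ : Term}
    (hcl : ∀ {u v}, XR W n u v → Cl (EV W) u v) (hcl₂ : Cl (EV W) x₂ y₂)
    (h1 : Sync (XR W n) x₁ y₁) (hh : Head x₁) (m : Bool) :
    PQ m (EV W) (x₁ x₂) (y₁ y₂) := by
  obtain ⟨x', y', e1, e2, e3⟩ := h1 []
  simp only [Ds] at e2
  cases hh with
  | I =>
    rw [e1.inv_atom] at e3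
    cases e3
    exact PQ.of_red (Red.rI _) ((Red.left _ e2).trans (Red.rI _)) (hcl₂.1 m)
  | K u =>
    obtain ⟨u', rfl, hu⟩ := e1.inv_K
    generalize he : Term.app K u' = z at e3
    cases e3 with
    | K1 h =>
      cases he
      exact PQ.of_red ((Red.rK _ _).trans hu.up) ((Red.left _ e2).trans (Red.rK _ _))
        ((hcl h).1 m)
    | Pra h => rename_i j _ _; cases j <;> cases he
    | _ => cases he
  | S u v =>
    obtain ⟨u', v', rfl, hu, hv⟩ := e1.inv_S2
    generalize he : (Term.app (Term.app S u') v') = z at e3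
    cases e3 with
    | S2 h h' =>
      cases he
      obtain ⟨a, b, ha, hb, hab⟩ := (hcl h).1 false
      obtain ⟨a', b', ha', hb', hab'⟩ := (hcl h').1 false
      obtain ⟨a'', b'', ha'', hb'', hab''⟩ := hcl₂.1 false
      refine PQ.of_red (Red.left _ e1.toTrue) (Red.left _ e2) ?_
      exact ⟨_, _, ub_S ha ha' ha'' m, ub_S hb hb' hb'' m,
        EV.app (EV.app hab hab'') (EV.app hab' hab'')⟩
    | Pra h => rename_i j _ _; cases j <;> cases he
    | _ => cases he
  | Pr i =>
    have e4 : y' = Pr i := by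
      cases i
      · rw [Red.inv_atom (a := .cD1) e1] at e3
        cases e3; rfl
      · rw [Red.inv_atom (a := .cD2) e1] at e3
        cases e3; rfl
    subst e4
    exact PQ.of_red (Red.refl _ _) (Red.left _ e2) (hcl₂.2 i m)

/-- Pairs of which the left one is contractible by the rule (6) at an active position. -/
theorem pair_sp {W} (hW : Good W) {n} {a b a' b' : Term}
    (hcl : ∀ {u v}, XR W n u v → Cl (EV W) u v)
    (h1 : XR W n a a') (h2 : XR W n b b') (hsp : SPRedex (D a b)) :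
    PQ true (EV W) (D a b) (D a' b') := by
  obtain ⟨x, y, he, hx, hy, hxy⟩ := hsp
  cases he
  obtain ⟨s, t, e1, e2, e3⟩ := h1.sync hW (.D1a hx) []
  obtain ⟨s', t', f1, f2, f3⟩ := h2.sync hW (.D2a hy) []
  simp only [Ds] at e2 f2
  obtain ⟨x', rfl, hx'⟩ := Red.inv_Pr (i := false) e1 hx.not_pairable
  obtain ⟨y', rfl, hy'⟩ := Red.inv_Pr (i := true) f1 hy.not_pairable
  obtain ⟨u, rfl, hu⟩ := e3.inv_Pr
  obtain ⟨v, rfl, hv⟩ := f3.inv_Pr
  have t1 : Thy x' u := VF.thy (fun _ _ h => h.thy (fun _ _ h => hW.thy h)) hu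
  have t2 : Thy y' v := VF.thy (fun _ _ h => h.thy (fun _ _ h => hW.thy h)) hv
  have t3 : Thy u v :=
    (((t1.symm.trans hx'.thy.symm).trans hxy).trans hy'.thy).trans t2
  refine PQ.of_red ((Red.sp hx hy hxy).trans hx'.toTrue)
    ((Red.pair e2 f2).trans (Red.sp hu.fp_right hv.fp_right t3)) ?_
  exact VF_PQ EV.refl EV.app (fun u v h => (hcl h).1 false) hu true

theorem PQ.refl {V : Term → Term → Prop} (hV : ∀ x, V x x) (m) (x : Term) : PQ m V x x := by
  obtain ⟨u, hu⟩ := exists_dev x m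
  exact ⟨u, u, hu.ub, hu.ub, hV _⟩

theorem Node.dev {W} (hW : Good W) {x y u v} (h : Node W x y) (hx : Dev false x u)
    (hy : Dev false y v) : Node W u v := by
  obtain ⟨p, q, p', q', h1, h2, h3, h4, h5, h6⟩ := h
  obtain ⟨a, a', ha, ha', haa⟩ := hW.pq false h5
  obtain ⟨b, b', hb, hb', hbb⟩ := hW.pq false h6
  refine ⟨a, b, a', b', ?_, ?_, ?_, ?_, haa, hbb⟩
  · exact (ha.of_red h1) _ (.app (Par.refl _ _) hx.par)
  · exact (hb.of_red h2) _ (.app (Par.refl _ _) hx.par)
  · exact (ha'.of_red h3) _ (.app (Par.refl _ _) hy.par)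
  · exact (hb'.of_red h4) _ (.app (Par.refl _ _) hy.par)

/-- A pairable term against a non-pairable one. -/
theorem Node.pq_pn {W} (hW : Good W) {x y} (h : Node W x y) (hx : Pairable x)
    (hy : ¬ Pairable y) : PQ true (EV W) x y := by
  obtain ⟨p, q, p', q', h1, h2, h3, h4, h5⟩ := h.adjust hW hx
  obtain ⟨y₁, rfl, hy₁⟩ := Red.inv_Pr (i := false) h2 hy
  obtain ⟨y₂, rfl, hy₂⟩ := Red.inv_Pr (i := true) h3 hy
  have hny₁ : ¬ Pairable y₁ := fun h' => hy (h'.of_red hy₁)
  have hny₂ : ¬ Pairable y₂ := fun h' => hy (h'.of_red hy₂)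
  by_cases hsp : SPRedex (D p q)
  · obtain ⟨u, v, he, hu, hv, huv⟩ := hsp
    cases he
    obtain ⟨s, t, e1, e2, e3⟩ := hW.sync h4 (.D1a hu) []
    simp only [Ds] at e2
    obtain ⟨u', rfl, hu'⟩ := Red.inv_Pr (i := false) e1 hu.not_pairable
    obtain ⟨t', rfl, ht'⟩ := e3.inv_Pr
    obtain ⟨y₃, he, hy₃⟩ := Red.inv_Pr (i := false) e2 hny₁
    cases he
    refine PQ.of_red ((h1.toTrue.trans (Red.sp hu hv huv)).trans hu'.toTrue)
      (hy₁.trans hy₃).toTrue ?_
    exact (hW.pq true (VF.rel hW.refl hW.app ht')).mono (fun _ _ h => hW.toEV h)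
  · obtain ⟨p₂, r, hp₂, hr, hpr⟩ := hW.pq true h4
    obtain ⟨q₂, s, hq₂, hs, hqs⟩ := hW.pq true h5
    obtain ⟨v, hv⟩ := exists_dev y false
    have hnv : ¬ Pairable v := fun h' => hy (h'.of_red (Red.single hv.par))
    have k1 : Red false (D1 v) r :=
      ((hr.of_red h2.toTrue) _ (.app (Par.refl _ _) hv.par)).down
        (not_pairable_Pr (i := false) hnv)
    have k2 : Red false (D2 v) s :=
      ((hs.of_red h3.toTrue) _ (.app (Par.refl _ _) hv.par)).down
        (not_pairable_Pr (i := true) hnv)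
    refine ⟨D p₂ q₂, v, (ub_pair hp₂ hq₂ hsp).of_red h1.toTrue,
      hv.ub.up (not_isPair_of_not_pairable hy) _, ⟨0, .node ?_⟩⟩
    exact ⟨p₂, q₂, r, s, Red.rD1 _ _, Red.rD2 _ _, k1, k2, hpr, hqs⟩

theorem Node.cl {W} (hW : Good W) {x y} (h : Node W x y) : Cl (EV W) x y := by
  obtain ⟨u, hu⟩ := exists_dev x false
  obtain ⟨v, hv⟩ := exists_dev y false
  have huv : EV W u v := ⟨0, .node (h.dev hW hu hv)⟩
  refine ⟨?_, ?_⟩
  · intro m
    cases m with
    | false => exact ⟨u, v, hu.ub, hv.ub, huv⟩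
    | true =>
      by_cases hx : Pairable x
      · by_cases hy : Pairable y
        · obtain ⟨p, q, p', q', h1, h2, h3, h4⟩ := h.adjust2 hW hx hy
          refine PQ.of_red h1.toTrue h2.toTrue ?_
          exact (hW.pq true (hW.app (hW.app (hW.refl _) h3) h4)).mono (fun _ _ h => hW.toEV h)
        · exact h.pq_pn hW hx hy
      · by_cases hy : Pairable y
        · exact ((h.symm hW.symm).pq_pn hW hy hx).symm (EV.symm hW.symm)
        · exact ⟨u, v, hu.ub.up (not_isPair_of_not_pairable hx) _,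
            hv.ub.up (not_isPair_of_not_pairable hy) _, huv⟩
  · obtain ⟨p, q, p', q', h1, h2, h3, h4, h5, h6⟩ := h
    intro i m
    refine PQ.up ?_ (not_isPair_Pr _ _) (not_isPair_Pr _ _) m
    cases i
    · exact PQ.of_red h1 h3 ((hW.pq false h5).mono (fun _ _ h => hW.toEV h))
    · exact PQ.of_red h2 h4 ((hW.pq false h6).mono (fun _ _ h => hW.toEV h))

/-- The left component is a pair. -/
theorem app_pair {W} (hW : Good W) {n} {a x₂ y₁ y₂ : Term}
    (hcl : ∀ {u v}, XR W (n + 1) u v → Cl (EV W) u v)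
    (h1 : Ext W n (D a) y₁) (h2 : Ext W n x₂ y₂) :
    PQ true (EV W) (D a x₂) (y₁ y₂) ∧
      ∀ i m, PQ m (EV W) (Pr i (D a x₂)) (Pr i (y₁ y₂)) := by
  obtain ⟨s, t, e1, e2, e3⟩ := h1.sync hW (.Da a) []
  simp only [Ds] at e2
  obtain ⟨a', rfl, ha'⟩ := e1.inv_D
  obtain ⟨b', rfl, hab⟩ : ∃ b', t = D b' ∧ XR W (n + 1) a' b' := by
    generalize he : Term.app D a' = z at e3
    cases e3 with
    | Da h => cases he; exact ⟨_, rfl, h.mono (Nat.le_succ n)⟩
    | Pra h => rename_i j _ _; cases j <;> cases he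
    | _ => cases he
  have h2' : XR W (n + 1) x₂ y₂ := Or.inr ⟨n, Nat.lt_succ_self n, h2⟩
  refine ⟨?_, ?_⟩
  · refine PQ.of_red (Red.left _ e1.toTrue) (Red.left _ e2) ?_
    by_cases hs : SPRedex (D a' x₂)
    · exact pair_sp hW hcl hab h2' hs
    · by_cases hs' : SPRedex (D b' y₂)
      · exact (pair_sp hW hcl (hab.symm hW.symm) (h2'.symm hW.symm) hs').symm (EV.symm hW.symm)
      · obtain ⟨p, p', hp, hp', hpp⟩ := (hcl hab).1 true
        obtain ⟨q, q', hq, hq', hqq⟩ := (hcl h2').1 true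
        exact ⟨_, _, ub_pair hp hq hs, ub_pair hp' hq' hs',
          EV.app (EV.app (EV.refl _) hpp) hqq⟩
  · intro i m
    refine PQ.up ?_ (not_isPair_Pr _ _) (not_isPair_Pr _ _) m
    cases i
    · refine PQ.of_red ((Red.rD1 _ _).trans ha')
        ((Red.right _ (Red.left _ e2)).trans (Red.rD1 _ _)) ((hcl hab).1 false)
    · exact PQ.of_red (Red.rD2 _ _)
        ((Red.right _ (Red.left _ e2)).trans (Red.rD2 _ _)) ((hcl h2').1 false)

theorem Ext.cl {W} (hW : Good W) : ∀ n {x y}, Ext W n x y → Cl (EV W) x y := by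
  intro n
  induction n using Nat.strong_induction_on with
  | _ n ih =>
    have hX : ∀ {u v}, XR W n u v → Cl (EV W) u v := by
      intro u v huv
      rcases huv with h | ⟨m, hm, h⟩
      · exact (hW.toNode h).cl hW
      · exact ih m hm h
    intro x y h
    cases h with
    | atom _ a =>
      refine ⟨fun m => PQ.refl EV.refl _ _, fun i m => PQ.refl EV.refl _ _⟩
    | node h => exact h.cl hW
    | @app k x₁ y₁ x₂ y₂ h1 h2 =>
      have hk : k < k + 1 := Nat.lt_succ_self k
      have hXk : ∀ {u v}, XR W k u v → Cl (EV W) u v := fun h => hX (h.mono hk.le)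
      have c1 := ih k hk h1
      have c2 := ih k hk h2
      have h1' := h1.symm hW.symm
      have h2' := h2.symm hW.symm
      have fstF : PQ false (EV W) (x₁ x₂) (y₁ y₂) := by
        by_cases hh : Head x₁
        · exact app_head hW hXk c2 (h1.sync hW hh.fp) hh false
        · by_cases hh' : Head y₁
          · exact (app_head hW hXk (c2.symm (EV.symm hW.symm)) (h1'.sync hW hh'.fp) hh'
              false).symm (EV.symm hW.symm)
          · obtain ⟨u, v, hu, hv, huv⟩ := c1.1 true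
            obtain ⟨u', v', hu', hv', huv'⟩ := c2.1 false
            exact ⟨_, _, ub_app hu hu' (fun h => hh (head_of_redex h)),
              ub_app hv hv' (fun h => hh' (head_of_redex h)), EV.app huv huv'⟩
      have main : PQ true (EV W) (x₁ x₂) (y₁ y₂) ∧
          ∀ i m, PQ m (EV W) (Pr i (x₁ x₂)) (Pr i (y₁ y₂)) := by
        by_cases hx : IsPair (x₁ x₂)
        · obtain ⟨a, b, he⟩ := hx
          cases he
          exact app_pair hW hX h1 h2
        · by_cases hy : IsPair (y₁ y₂)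
          · obtain ⟨a, b, he⟩ := hy
            cases he
            obtain ⟨A, B⟩ := app_pair hW hX h1' h2'
            exact ⟨A.symm (EV.symm hW.symm), fun i m => (B i m).symm (EV.symm hW.symm)⟩
          · refine ⟨fstF.up hx hy _, ?_⟩
            intro i m
            obtain ⟨u, v, hu, hv, huv⟩ := fstF
            exact ⟨_, _, ub_Pr hu hx m, ub_Pr hv hy m, EV.app (EV.refl _) huv⟩
      refine ⟨?_, main.2⟩
      intro m
      cases m
      · exact fstF
      · exact main.1

theorem good_EV {W} (hW : Good W) : Good (EV W) where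
  refl := EV.refl
  symm := EV.symm hW.symm
  app := EV.app
  thy := by
    rintro x y ⟨n, h⟩
    exact h.thy (fun _ _ h => hW.thy h)
  pq := by
    rintro m x y ⟨n, h⟩
    exact (Ext.cl hW n h).1 m
  sync := by
    rintro x y ⟨n, h⟩ hx l
    obtain ⟨x', y', h1, h2, h3⟩ := h.sync hW hx l
    refine ⟨x', y', h1, h2, h3.mono ?_⟩
    rintro u v (h | ⟨m, _, h⟩)
    · exact hW.toEV h
    · exact ⟨m, h⟩

/-- The relations `V d`. -/
def V : ℕ → Term → Term → Prop
  | 0 => Eq
  | d + 1 => EV (V d)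

theorem good_V : ∀ d, Good (V d)
  | 0 => good_eq
  | d + 1 => good_EV (good_V d)

end Pool.Agent.CLSP
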