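import Pool.Agent.CLSP.Defs

namespace Pool.Agent.CLSP

open Relation

/-! ### The equational theory -/

/-- The equational theory generated by the unconditional rules and `D (D₁ x) (D₂ x) = x`. -/
def Thy : Term → Term → Prop := EqvGen (OneStep Eq)

theorem Thy.refl (x : Term) : Thy x x := EqvGen.refl x
theorem Thy.symm {x y : Term} (h : Thy x y) : Thy y x := EqvGen.symm _ _ h
theorem Thy.trans {x y z : Term} (h : Thy x y) (h' : Thy y z) : Thy x z := EqvGen.trans _ _ _ h h'
theorem Thy.of {x y : Term} (h : OneStep Eq x y) : Thy x y := EqvGen.rel _ _ h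

theorem Thy.left {s s' : Term} (t : Term) (h : Thy s s') : Thy (s t) (s' t) := by
  induction h with
  | rel x y h => exact Thy.of (.left _ _ _ h)
  | refl x => exact Thy.refl _
  | symm x y _ ih => exact ih.symm
  | trans x y z _ _ ih1 ih2 => exact ih1.trans ih2

theorem Thy.right (s : Term) {t t' : Term} (h : Thy t t') : Thy (s t) (s t') := by
  induction h with
  | rel x y h => exact Thy.of (.right _ _ _ h)
  | refl x => exact Thy.refl _
  | symm x y _ ih => exact ih.symm
  | trans x y z _ _ ih1 ih2 => exact ih1.trans ih2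

theorem Thy.app {s s' t t' : Term} (h : Thy s s') (h' : Thy t t') : Thy (s t) (s' t') :=
  (Thy.left _ h).trans (Thy.right _ h')

theorem Thy.sp (x : Term) : Thy (D (D1 x) (D2 x)) x := Thy.of (.rule6 x x rfl)

theorem Thy.sp' {x y : Term} (h : Thy x y) : Thy (D (D1 x) (D2 y)) x :=
  (Thy.app (Thy.refl _) (Thy.app (Thy.refl _) h.symm)).trans (Thy.sp x)

/-! ### Rigid forms -/

/-- Partial applications of the constants, possibly below projections `D₁`, `D₂`. -/
inductive FP : Term → Prop
  | cI : FP I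
  | cK : FP K
  | cS : FP S
  | cD : FP D
  | cD1 : FP D1
  | cD2 : FP D2
  | K1 (x) : FP (K x)
  | S1 (x) : FP (S x)
  | S2 (x y) : FP (S x y)
  | Da (x) : FP (D x)
  | D1a {x} : FP x → FP (D1 x)
  | D2a {x} : FP x → FP (D2 x)

/-! ### Parallel reduction; the index is `true` for active positions -/

inductive Par : Bool → Term → Term → Prop
  | atom (m a) : Par m (.atom a) (.atom a)
  | app {m s s' t t'} : Par true s s' → Par false t t' → Par m (s t) (s' t')
  | rI {m x x'} : Par false x x' → Par m (I x) x'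
  | rK {m x x'} (y) : Par false x x' → Par m (K x y) x'
  | rS {m x x' y y' z z'} : Par false x x' → Par false y y' → Par false z z' →
      Par m (S x y z) ((x' z') (y' z'))
  | rD1 {m x x'} (y) : Par false x x' → Par m (D1 (D x y)) x'
  | rD2 {m y y'} (x) : Par false y y' → Par m (D2 (D x y)) y'
  | pair {x x' y y'} : Par true x x' → Par true y y' → Par true (D x y) (D x' y')
  | sp {x x' y} : FP x → FP y → Thy x y → Par false x x' → Par true (D (D1 x) (D2 y)) x'

theorem Par.mono {m m' s t} (h : Par m s t) (hm : m = false ∨ m' = true) : Par m' s t := by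
  cases h with
  | atom => exact .atom _ _
  | app h1 h2 => exact .app h1 h2
  | rI h => exact .rI h
  | rK y h => exact .rK y h
  | rS h1 h2 h3 => exact .rS h1 h2 h3
  | rD1 y h => exact .rD1 y h
  | rD2 x h => exact .rD2 x h
  | pair h1 h2 =>
    rcases hm with hm | hm
    · cases hm
    · subst hm; exact .pair h1 h2
  | sp a b c d =>
    rcases hm with hm | hm
    · cases hm
    · subst hm; exact .sp a b c d

theorem Par.up {m s t} (h : Par false s t) : Par m s t := h.mono (Or.inl rfl)
theorem Par.toTrue {m s t} (h : Par m s t) : Par true s t := h.mono (Or.inr rfl)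

theorem Par.refl (m) (t : Term) : Par m t t := by
  induction t generalizing m with
  | atom a => exact .atom _ _
  | app s t ih1 ih2 => exact .app (ih1 _) (ih2 _)

def IsPair (t : Term) : Prop := ∃ p q, t = D p q

theorem Par.down {m m' s t} (h : Par m s t) (hs : ¬ IsPair s) : Par m' s t := by
  cases h with
  | atom => exact .atom _ _
  | app h1 h2 => exact .app h1 h2
  | rI h => exact .rI h
  | rK y h => exact .rK y h
  | rS h1 h2 h3 => exact .rS h1 h2 h3
  | rD1 y h => exact .rD1 y h
  | rD2 x h => exact .rD2 x h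
  | pair h1 h2 => exact absurd ⟨_, _, rfl⟩ hs
  | sp a b c d => exact absurd ⟨_, _, rfl⟩ hs

theorem FP.not_isPair {x : Term} (h : FP x) : ¬ IsPair x := by
  rintro ⟨p, q, rfl⟩
  cases h

/-! #### Inversion lemmas -/

theorem Par.inv_atom {m a t} (h : Par m (.atom a) t) : t = .atom a := by
  cases h; rfl

theorem Par.inv_K {m x t} (h : Par m (K x) t) : ∃ x', t = K x' ∧ Par false x x' := by
  cases h with
  | app h1 h2 => cases h1; exact ⟨_, rfl, h2⟩

theorem Par.inv_S {m x t} (h : Par m (S x) t) : ∃ x', t = S x' ∧ Par false x x' := by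
  cases h with
  | app h1 h2 => cases h1; exact ⟨_, rfl, h2⟩

theorem Par.inv_D {m x t} (h : Par m (D x) t) : ∃ x', t = D x' ∧ Par false x x' := by
  cases h with
  | app h1 h2 => cases h1; exact ⟨_, rfl, h2⟩

theorem Par.inv_S2 {m x y t} (h : Par m (S x y) t) :
    ∃ x' y', t = S x' y' ∧ Par false x x' ∧ Par false y y' := by
  cases h with
  | app h1 h2 =>
    obtain ⟨x', rfl, hx⟩ := h1.inv_S
    exact ⟨_, _, rfl, hx, h2⟩

theorem Par.inv_pair {x y t} (h : Par false (D x y) t) :
    ∃ x' y', t = D x' y' ∧ Par false x x' ∧ Par false y y' := by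
  cases h with
  | app h1 h2 =>
    obtain ⟨x', rfl, hx⟩ := h1.inv_D
    exact ⟨_, _, rfl, hx, h2⟩

theorem Par.inv_D1 {m x t} (h : Par m (D1 x) t) (hx : ¬ IsPair x) :
    ∃ x', t = D1 x' ∧ Par false x x' := by
  cases h with
  | app h1 h2 => cases h1; exact ⟨_, rfl, h2⟩
  | rD1 y h => exact absurd ⟨_, _, rfl⟩ hx

theorem Par.inv_D2 {m x t} (h : Par m (D2 x) t) (hx : ¬ IsPair x) :
    ∃ x', t = D2 x' ∧ Par false x x' := by
  cases h with
  | app h1 h2 => cases h1; exact ⟨_, rfl, h2⟩
  | rD2 y h => exact absurd ⟨_, _, rfl⟩ hx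

theorem FP.par {m x x'} (hx : FP x) (h : Par m x x') : FP x' := by
  induction hx generalizing m x' with
  | cI => rw [h.inv_atom]; exact .cI
  | cK => rw [h.inv_atom]; exact .cK
  | cS => rw [h.inv_atom]; exact .cS
  | cD => rw [h.inv_atom]; exact .cD
  | cD1 => rw [h.inv_atom]; exact .cD1
  | cD2 => rw [h.inv_atom]; exact .cD2
  | K1 x => obtain ⟨_, rfl, _⟩ := h.inv_K; exact .K1 _
  | S1 x => obtain ⟨_, rfl, _⟩ := h.inv_S; exact .S1 _
  | S2 x y => obtain ⟨_, _, rfl, _, _⟩ := h.inv_S2; exact .S2 _ _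
  | Da x => obtain ⟨_, rfl, _⟩ := h.inv_D; exact .Da _
  | D1a hx ih =>
    obtain ⟨_, rfl, h'⟩ := h.inv_D1 hx.not_isPair
    exact .D1a (ih h')
  | D2a hx ih =>
    obtain ⟨_, rfl, h'⟩ := h.inv_D2 hx.not_isPair
    exact .D2a (ih h')

theorem Par.thy {m s t} (h : Par m s t) : Thy s t := by
  induction h with
  | atom => exact Thy.refl _
  | app _ _ ih1 ih2 => exact Thy.app ih1 ih2
  | rI _ ih => exact (Thy.of (.rule1 _)).trans ih
  | rK y _ ih => exact (Thy.of (.rule2 _ _)).trans ih
  | rS _ _ _ ih1 ih2 ih3 =>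
    exact (Thy.of (.rule3 _ _ _)).trans (Thy.app (Thy.app ih1 ih3) (Thy.app ih2 ih3))
  | rD1 y _ ih => exact (Thy.of (.rule4 _ _)).trans ih
  | rD2 y _ ih => exact (Thy.of (.rule5 _ _)).trans ih
  | pair _ _ ih1 ih2 => exact Thy.app (Thy.app (Thy.refl _) ih1) ih2
  | sp _ _ h _ ih => exact (Thy.sp' h).trans ih

/-! #### Developments -/

/-- `u` is reached in one parallel step from every one step parallel reduct of `t`. -/
def Dev (m : Bool) (t u : Term) : Prop := ∀ t', Par m t t' → Par m t' u

theorem Dev.par {m t u} (h : Dev m t u) : Par m t u := h t (Par.refl _ _)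

theorem Dev.up {t u} (h : Dev false t u) (ht : ¬ IsPair t) (m) : Dev m t u := by
  intro t' h'
  exact (h t' (h'.down ht)).up

end Pool.Agent.CLSP
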