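import Pool.Agent.CLSP.Main

namespace Pool.Agent.CLSP

open Relation

/-! ### Lazy expansion: `TN z w` -/

/-- `w` arises from `z` by replacing disjoint subterms `c` by `D (D₁ c₁) (D₂ c₂)` where `c` reduces
to `c₁` and to `c₂` and is not pairable. -/
inductive TN : Term → Term → Prop
  | atom (a) : TN (.atom a) (.atom a)
  | app {z₁ w₁ z₂ w₂ : Term} : TN z₁ w₁ → TN z₂ w₂ → TN (z₁ z₂) (w₁ w₂)
  | node {c c₁ c₂} : ¬ Pairable c → Red false c c₁ → Red false c c₂ → TN c (D (D1 c₁) (D2 c₂))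

theorem TN.refl (x : Term) : TN x x := by
  induction x with
  | atom a => exact .atom _
  | app s t ih1 ih2 => exact .app ih1 ih2

theorem TN.thy {z w} (h : TN z w) : Thy z w := by
  induction h with
  | atom => exact Thy.refl _
  | app _ _ ih1 ih2 => exact Thy.app ih1 ih2
  | node _ h1 h2 =>
    exact (Thy.sp _).symm.trans
      (Thy.app (Thy.app (Thy.refl _) (Thy.app (Thy.refl _) h1.thy)) (Thy.app (Thy.refl _) h2.thy))

theorem TN.inv_atom {z a} (h : TN z (.atom a)) : z = .atom a := by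
  cases h; rfl

theorem TN.inv_K {z x} (h : TN z (K x)) : ∃ x₀, z = K x₀ ∧ TN x₀ x := by
  cases h with
  | app h1 h2 => cases h1; exact ⟨_, rfl, h2⟩

theorem TN.inv_S {z x} (h : TN z (S x)) : ∃ x₀, z = S x₀ ∧ TN x₀ x := by
  cases h with
  | app h1 h2 => cases h1; exact ⟨_, rfl, h2⟩

theorem TN.inv_D {z x} (h : TN z (D x)) : ∃ x₀, z = D x₀ ∧ TN x₀ x := by
  cases h with
  | app h1 h2 => cases h1; exact ⟨_, rfl, h2⟩

theorem TN.inv_D1 {z x} (h : TN z (D1 x)) : ∃ x₀, z = D1 x₀ ∧ TN x₀ x := by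
  cases h with
  | app h1 h2 => cases h1; exact ⟨_, rfl, h2⟩

theorem TN.inv_D2 {z x} (h : TN z (D2 x)) : ∃ x₀, z = D2 x₀ ∧ TN x₀ x := by
  cases h with
  | app h1 h2 => cases h1; exact ⟨_, rfl, h2⟩

theorem TN.inv_S2 {z x y} (h : TN z (S x y)) : ∃ x₀ y₀, z = S x₀ y₀ ∧ TN x₀ x ∧ TN y₀ y := by
  cases h with
  | app h1 h2 =>
    obtain ⟨x₀, rfl, h3⟩ := h1.inv_S
    exact ⟨_, _, rfl, h3, h2⟩

theorem TN.fp {z x} (hx : FP x) (h : TN z x) : FP z := by
  induction hx generalizing z with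
  | cI => rw [h.inv_atom]; exact .cI
  | cK => rw [h.inv_atom]; exact .cK
  | cS => rw [h.inv_atom]; exact .cS
  | cD => rw [h.inv_atom]; exact .cD
  | cD1 => rw [h.inv_atom]; exact .cD1
  | cD2 => rw [h.inv_atom]; exact .cD2
  | K1 x => obtain ⟨_, rfl, _⟩ := h.inv_K; exact .K1 _
  | S1 x => obtain ⟨_, rfl, _⟩ := h.inv_S; exact .S1 _
  | S2 x y => obtain ⟨_, _, rfl, _, _⟩ := h.inv_S2; exact .S2 _ _
  | Da x => obtain ⟨_, rfl, _⟩ := h.inv_D; exact .Da _
  | D1a hx ih =>
    obtain ⟨_, rfl, h'⟩ := h.inv_D1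
    exact .D1a (ih h')
  | D2a hx ih =>
    obtain ⟨_, rfl, h'⟩ := h.inv_D2
    exact .D2a (ih h')

theorem TN.sim {m w w'} (h : Par m w w') : ∀ {z}, TN z w → ∃ z', Red m z z' ∧ TN z' w' := by
  induction h with
  | atom m a => intro z hz; exact ⟨z, Red.refl _ _, hz⟩
  | @app m s s' t t' h1 h2 ih1 ih2 =>
    intro z hz
    cases hz with
    | app e1 e2 =>
      obtain ⟨u, hu, hu'⟩ := ih1 e1
      obtain ⟨v, hv, hv'⟩ := ih2 e2
      exact ⟨_, Red.app hu hv, .app hu' hv'⟩
    | @node _ c₁ c₂ hn e1 e2 =>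
      have n1 : ¬ Pairable c₁ := fun h' => hn (h'.of_red e1)
      have n2 : ¬ Pairable c₂ := fun h' => hn (h'.of_red e2)
      obtain ⟨x, rfl, hx⟩ := h1.inv_D
      obtain ⟨x', rfl, hx'⟩ := hx.inv_D1 (not_isPair_of_not_pairable n1)
      obtain ⟨y', rfl, hy'⟩ := h2.inv_D2 (not_isPair_of_not_pairable n2)
      exact ⟨z, Red.refl _ _, .node hn (e1.tail hx') (e2.tail hy')⟩
  | rI h ih =>
    intro z hz
    cases hz with
    | app e1 e2 =>
      obtain ⟨v, hv, hv'⟩ := ih e2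
      rw [e1.inv_atom]
      exact ⟨v, (Red.rI _).trans hv.up, hv'⟩
  | rK y h ih =>
    intro z hz
    cases hz with
    | app e1 e2 =>
      obtain ⟨x₀, rfl, e3⟩ := e1.inv_K
      obtain ⟨v, hv, hv'⟩ := ih e3
      exact ⟨v, (Red.rK _ _).trans hv.up, hv'⟩
  | rS h1 h2 h3 ih1 ih2 ih3 =>
    intro z hz
    cases hz with
    | app e1 e2 =>
      obtain ⟨x₀, y₀, rfl, e3, e4⟩ := e1.inv_S2
      obtain ⟨u, hu, hu'⟩ := ih1 e3
      obtain ⟨v, hv, hv'⟩ := ih2 e4
      obtain ⟨w, hw, hw'⟩ := ih3 e2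
      exact ⟨_, (Red.rS _ _ _).trans (Red.app (Red.app hu.up hw) (Red.app hv.up hw)),
        .app (.app hu' hw') (.app hv' hw')⟩
  | @rD1 m x x' y h ih =>
    intro z hz
    cases hz with
    | app e1 e2 =>
      rw [e1.inv_atom]
      cases e2 with
      | app e3 e4 =>
        obtain ⟨x₀, rfl, e5⟩ := e3.inv_D
        obtain ⟨v, hv, hv'⟩ := ih e5
        exact ⟨v, (Red.rD1 _ _).trans hv.up, hv'⟩
      | @node _ c₁ c₂ hn e3 e4 =>
        exact ⟨_, (Red.right _ e3).tail h.up, TN.refl _⟩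
  | @rD2 m x x' y h ih =>
    intro z hz
    cases hz with
    | app e1 e2 =>
      rw [e1.inv_atom]
      cases e2 with
      | app e3 e4 =>
        obtain ⟨x₀, rfl, e5⟩ := e3.inv_D
        obtain ⟨v, hv, hv'⟩ := ih e4
        exact ⟨v, (Red.rD2 _ _).trans hv.up, hv'⟩
      | @node _ c₁ c₂ hn e3 e4 =>
        exact ⟨_, (Red.right _ e4).tail h.up, TN.refl _⟩
  | @pair x x' y y' h1 h2 ih1 ih2 =>
    intro z hz
    cases hz with
    | app e1 e2 =>
      obtain ⟨x₀, rfl, e3⟩ := e1.inv_D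
      obtain ⟨u, hu, hu'⟩ := ih1 e3
      obtain ⟨v, hv, hv'⟩ := ih2 e2
      exact ⟨_, Red.pair hu hv, .app (.app (.atom _) hu') hv'⟩
    | @node _ c₁ c₂ hn e1 e2 =>
      have n1 : ¬ Pairable c₁ := fun h' => hn (h'.of_red e1)
      have n2 : ¬ Pairable c₂ := fun h' => hn (h'.of_red e2)
      obtain ⟨x', rfl, hx'⟩ := h1.inv_D1 (not_isPair_of_not_pairable n1)
      obtain ⟨y', rfl, hy'⟩ := h2.inv_D2 (not_isPair_of_not_pairable n2)
      exact ⟨z, Red.refl _ _, .node hn (e1.tail hx') (e2.tail hy')⟩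
  | @sp x x' y hx hy hxy h ih =>
    intro z hz
    cases hz with
    | app e1 e2 =>
      obtain ⟨p, rfl, e3⟩ := e1.inv_D
      obtain ⟨x₀, rfl, e4⟩ := e3.inv_D1
      obtain ⟨y₀, rfl, e5⟩ := e2.inv_D2
      obtain ⟨v, hv, hv'⟩ := ih e4
      exact ⟨v, (Red.sp (e4.fp hx) (e5.fp hy) ((e4.thy.trans hxy).trans e5.thy.symm)).trans hv.up,
        hv'⟩
    | @node _ c₁ c₂ hn e1 e2 =>
      exact ⟨_, (e1.tail h).toTrue, TN.refl _⟩

theorem TN.sims {m w w'} (h : Red m w w') {z} (hz : TN z w) : ∃ z', Red m z z' ∧ TN z' w' := by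
  induction h with
  | refl => exact ⟨z, Red.refl _ _, hz⟩
  | tail _ h ih =>
    obtain ⟨z', h1, h2⟩ := ih
    obtain ⟨z'', h3, h4⟩ := TN.sim h h2
    exact ⟨z'', h1.trans h3, h4⟩

/-! ### Balanced expansion: `TT z w` -/

/-- `w` arises from `z` by replacing disjoint subterms `u` by `D (D₁ u) (D₂ u)`. -/
inductive TT : Term → Term → Prop
  | atom (a) : TT (.atom a) (.atom a)
  | app {z₁ w₁ z₂ w₂ : Term} : TT z₁ w₁ → TT z₂ w₂ → TT (z₁ z₂) (w₁ w₂)
  | node (u) : TT u (D (D1 u) (D2 u))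

theorem TT.refl (x : Term) : TT x x := by
  induction x with
  | atom a => exact .atom _
  | app s t ih1 ih2 => exact .app ih1 ih2

theorem TT.thy {z w} (h : TT z w) : Thy z w := by
  induction h with
  | atom => exact Thy.refl _
  | app _ _ ih1 ih2 => exact Thy.app ih1 ih2
  | node u => exact (Thy.sp _).symm

/-- Rigid forms are synchronised. -/
theorem TT.sync {x w} (hx : FP x) (h : TT x w) :
    ∀ l : List Bool, ∃ w', Red true (Ds l w) (Ds l w') ∧ VF TT x w' := by
  have node : ∀ x, FP x → ∀ l : List Bool,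
      ∃ w', Red true (Ds l (D (D1 x) (D2 x))) (Ds l w') ∧ VF TT x w' := by
    intro x hx l
    refine ⟨x, ?_, VF_refl TT.refl hx⟩
    rcases List.eq_nil_or_concat l with rfl | ⟨l', i, rfl⟩
    · exact Red.sp hx hx (Thy.refl _)
    · rw [List.concat_eq_append, Ds_append, Ds_append]
      refine Red.dsF l' ((Red.pr _ _ _).trans ?_)
      cases i
      · exact Red.refl _ _
      · exact Red.refl _ _
  induction h with
  | atom a => intro l; exact ⟨_, Red.refl _ _, VF_refl TT.refl hx⟩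
  | node u => exact node _ hx
  | @app z₁ w₁ z₂ w₂ h1 h2 ih1 ih2 =>
    intro l
    generalize he : Term.app z₁ z₂ = z at hx
    cases hx with
    | K1 x =>
      cases he
      obtain ⟨w', e2, e3⟩ := ih1 .cK []
      cases e3
      exact ⟨K w₂, Red.dsF l (Red.left _ e2), .K1 h2⟩
    | S1 x =>
      cases he
      obtain ⟨w', e2, e3⟩ := ih1 .cS []
      cases e3
      exact ⟨S w₂, Red.dsF l (Red.left _ e2), .S1 h2⟩
    | Da x =>
      cases he
      obtain ⟨w', e2, e3⟩ := ih1 .cD []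
      cases e3
      exact ⟨D w₂, Red.dsF l (Red.left _ e2), .Da h2⟩
    | S2 u v =>
      cases he
      obtain ⟨w', e2, e3⟩ := ih1 (.S1 u) []
      generalize he' : Term.app S u = z' at e3
      cases e3 with
      | S1 h =>
        cases he'
        rename_i v'
        exact ⟨S v' w₂, Red.dsF l (Red.left _ e2), .S2 h h2⟩
      | Pra h => rename_i j _ _; cases j <;> cases he'
      | _ => cases he'
    | D1a hx =>
      cases he
      obtain ⟨w', e2, e3⟩ := ih1 .cD1 []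
      cases e3
      obtain ⟨b, f2, f3⟩ := ih2 hx (l ++ [false])
      refine ⟨Pr false b, ?_, .Pra (i := false) f3⟩
      rw [Ds_append, Ds_append] at f2
      exact (Red.dsF l (Red.left _ e2)).trans f2
    | D2a hx =>
      cases he
      obtain ⟨w', e2, e3⟩ := ih1 .cD2 []
      cases e3
      obtain ⟨b, f2, f3⟩ := ih2 hx (l ++ [true])
      refine ⟨Pr true b, ?_, .Pra (i := true) f3⟩
      rw [Ds_append, Ds_append] at f2
      exact (Red.dsF l (Red.left _ e2)).trans f2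
    | _ => cases he

theorem VF.inv_K {W : Term → Term → Prop} {s t : Term} (h : VF W (K s) t) :
    ∃ t', t = K t' ∧ W s t' := by
  generalize he : Term.app K s = s' at h
  cases h with
  | K1 h => cases he; exact ⟨_, rfl, h⟩
  | Pra h => rename_i j _ _; cases j <;> cases he
  | _ => cases he

theorem VF.inv_D {W : Term → Term → Prop} {s t : Term} (h : VF W (D s) t) :
    ∃ t', t = D t' ∧ W s t' := by
  generalize he : Term.app D s = s' at h
  cases h with
  | Da h => cases he; exact ⟨_, rfl, h⟩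
  | Pra h => rename_i j _ _; cases j <;> cases he
  | _ => cases he

theorem VF.inv_S2 {W : Term → Term → Prop} {s r t : Term} (h : VF W (S s r) t) :
    ∃ s' r', t = S s' r' ∧ W s s' ∧ W r r' := by
  generalize he : (Term.app (Term.app S s) r) = s' at h
  cases h with
  | S2 h h' => cases he; exact ⟨_, _, rfl, h, h'⟩
  | Pra h => rename_i j _ _; cases j <;> cases he
  | _ => cases he

theorem TT.node_sim {m u u'} (h : Par m u u') :
    ∃ w', Red m (D (D1 u) (D2 u)) w' ∧ TT u' w' := by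
  by_cases hu : IsPair u
  · obtain ⟨p, q, rfl⟩ := hu
    cases m
    · exact ⟨_, Red.pairF (Red.right _ (Red.single h)) (Red.right _ (Red.single h)), .node _⟩
    · refine ⟨u', (Red.pairF (Red.rD1 _ _) (Red.rD2 _ _)).tail h, TT.refl _⟩
  · have h' : Par false u u' := h.down hu
    exact ⟨_, Red.pairF (Red.right _ (Red.single h')) (Red.right _ (Red.single h')), .node _⟩

theorem TT.sim {m z z'} (h : Par m z z') : ∀ {w}, TT z w → ∃ w', Red m w w' ∧ TT z' w' := by
  induction h with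
  | atom m a =>
    intro w hw
    exact ⟨w, Red.refl _ _, hw⟩
  | @app m s s' t t' h1 h2 ih1 ih2 =>
    intro w hw
    cases hw with
    | app e1 e2 =>
      obtain ⟨u, hu, hu'⟩ := ih1 e1
      obtain ⟨v, hv, hv'⟩ := ih2 e2
      exact ⟨_, Red.app hu hv, .app hu' hv'⟩
    | node => exact TT.node_sim (.app h1 h2)
  | rI h ih =>
    intro w hw
    cases hw with
    | app e1 e2 =>
      obtain ⟨v, hv, hv'⟩ := ih e2
      obtain ⟨w', f1, f2⟩ := e1.sync .cI []
      cases f2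
      exact ⟨v, ((Red.left _ f1).trans (Red.rI _)).trans hv.up, hv'⟩
    | node => exact TT.node_sim (.rI h)
  | rK y h ih =>
    intro w hw
    cases hw with
    | app e1 e2 =>
      obtain ⟨w', f1, f2⟩ := e1.sync (.K1 _) []
      obtain ⟨t, rfl, f3⟩ := f2.inv_K
      obtain ⟨v, hv, hv'⟩ := ih f3
      exact ⟨v, ((Red.left _ f1).trans (Red.rK _ _)).trans hv.up, hv'⟩
    | node => exact TT.node_sim (.rK _ h)
  | rS h1 h2 h3 ih1 ih2 ih3 =>
    intro w hw
    cases hw with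
    | app e1 e2 =>
      obtain ⟨w', f1, f2⟩ := e1.sync (.S2 _ _) []
      obtain ⟨s, t, rfl, f3, f4⟩ := f2.inv_S2
      obtain ⟨u, hu, hu'⟩ := ih1 f3
      obtain ⟨v, hv, hv'⟩ := ih2 f4
      obtain ⟨w, hw, hw'⟩ := ih3 e2
      exact ⟨_, ((Red.left _ f1).trans (Red.rS _ _ _)).trans
        (Red.app (Red.app hu.up hw) (Red.app hv.up hw)), .app (.app hu' hw') (.app hv' hw')⟩
    | node => exact TT.node_sim (.rS h1 h2 h3)
  | @rD1 m x x' y h ih =>
    intro w hw
    cases hw with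
    | app e1 e2 =>
      obtain ⟨w', f1, f2⟩ := e1.sync .cD1 []
      cases f2
      cases e2 with
      | app e3 e4 =>
        obtain ⟨w', g1, g2⟩ := e3.sync (.Da _) []
        obtain ⟨t, rfl, g3⟩ := g2.inv_D
        obtain ⟨v, hv, hv'⟩ := ih g3
        refine ⟨v, ((Red.left _ f1).trans ?_).trans hv.up, hv'⟩
        exact (Red.right _ (Red.left _ g1)).trans (Red.rD1 _ _)
      | node =>
        refine ⟨x', ((Red.left _ f1).trans ?_).tail h.up, TT.refl _⟩
        exact (Red.rD1 _ _).trans (Red.rD1 _ _)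
    | node => exact TT.node_sim (.rD1 _ h)
  | @rD2 m y y' x h ih =>
    intro w hw
    cases hw with
    | app e1 e2 =>
      obtain ⟨w', f1, f2⟩ := e1.sync .cD2 []
      cases f2
      cases e2 with
      | app e3 e4 =>
        obtain ⟨w', g1, g2⟩ := e3.sync (.Da _) []
        obtain ⟨t, rfl, g3⟩ := g2.inv_D
        obtain ⟨v, hv, hv'⟩ := ih e4
        refine ⟨v, ((Red.left _ f1).trans ?_).trans hv.up, hv'⟩
        exact (Red.right _ (Red.left _ g1)).trans (Red.rD2 _ _)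
      | node =>
        refine ⟨y', ((Red.left _ f1).trans ?_).tail h.up, TT.refl _⟩
        exact (Red.rD2 _ _).trans (Red.rD2 _ _)
    | node => exact TT.node_sim (.rD2 _ h)
  | @pair x x' y y' h1 h2 ih1 ih2 =>
    intro w hw
    cases hw with
    | app e1 e2 =>
      obtain ⟨w', f1, f2⟩ := e1.sync (.Da _) []
      obtain ⟨t, rfl, f3⟩ := f2.inv_D
      obtain ⟨u, hu, hu'⟩ := ih1 f3
      obtain ⟨v, hv, hv'⟩ := ih2 e2
      exact ⟨_, (Red.left _ f1).trans (Red.pair hu hv), .app (.app (.atom _) hu') hv'⟩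
    | node => exact TT.node_sim (.pair h1 h2)
  | @sp x x' y hx hy hxy h ih =>
    intro w hw
    cases hw with
    | app e1 e2 =>
      obtain ⟨w', f1, f2⟩ := e1.sync (.Da _) []
      obtain ⟨t, rfl, f3⟩ := f2.inv_D
      obtain ⟨w₁, g1, g2⟩ := f3.sync (.D1a hx) []
      obtain ⟨w₂, k1, k2⟩ := e2.sync (.D2a hy) []
      obtain ⟨x₁, rfl, g3⟩ := VF.inv_Pr (i := false) g2
      obtain ⟨y₁, rfl, k3⟩ := VF.inv_Pr (i := true) k2
      have hxt : TT x x₁ := VF.rel TT.refl TT.app g3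
      have hyt : TT y y₁ := VF.rel TT.refl TT.app k3
      obtain ⟨v, hv, hv'⟩ := ih hxt
      refine ⟨v, (((Red.left _ f1).trans (Red.pair g1 k1)).trans
        (Red.sp g3.fp_right k3.fp_right ((hxt.thy.symm.trans hxy).trans hyt.thy))).trans hv.up, hv'⟩
    | node => exact TT.node_sim (.sp hx hy hxy h)

theorem TT.sims {m z z'} (h : Red m z z') {w} (hw : TT z w) : ∃ w', Red m w w' ∧ TT z' w' := by
  induction h with
  | refl => exact ⟨w, Red.refl _ _, hw⟩
  | tail _ h ih =>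
    obtain ⟨w', h1, h2⟩ := ih
    obtain ⟨w'', h3, h4⟩ := TT.sim h h2
    exact ⟨w'', h1.trans h3, h4⟩

/-! ### Composition with `V` -/

theorem V.refl (d x) : V d x x := (good_V d).refl x

theorem V.app {d} {x₁ y₁ x₂ y₂ : Term} (h1 : V d x₁ y₁) (h2 : V d x₂ y₂) :
    V d (x₁ x₂) (y₁ y₂) := (good_V d).app h1 h2

theorem V.succ {d x y} (h : V d x y) : V (d + 1) x y := (good_V d).toEV h

theorem V.node {d x y} (h : Node (V d) x y) : V (d + 1) x y := ⟨0, .node h⟩

theorem V.node_TN {d x c c₁ c₂} (h1 : Red false c c₁) (h2 : Red false c c₂)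
    (h : V d x (D (D1 c₁) (D2 c₂))) : V (d + 1) x c := by
  obtain ⟨p, p', e1, e2, e3⟩ := (good_V d).red' (V.app (V.refl d D1) h) (Red.rD1 (m := false) _ _)
  obtain ⟨q, q', f1, f2, f3⟩ := (good_V d).red' (V.app (V.refl d D2) h) (Red.rD2 (m := false) _ _)
  exact V.node ⟨p, q, p', q', e1, f1, (Red.right _ h1).trans e2, (Red.right _ h2).trans f2, e3, f3⟩

theorem V.comp_TN : ∀ d {x w z}, V d x w → TN z w → V (d + 1) x z := by
  intro d
  induction d with
  | zero =>
    intro x w z h hz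
    cases h
    induction hz with
    | atom a => exact V.refl _ _
    | app _ _ ih1 ih2 => exact V.app ih1 ih2
    | node hn h1 h2 => exact V.node_TN h1 h2 (V.refl _ _)
  | succ d ih =>
    intro x w z h hz
    obtain ⟨n, h⟩ := h
    induction h generalizing z with
    | atom n a =>
      rw [hz.inv_atom]; exact V.refl _ _
    | @app n x₁ y₁ x₂ y₂ h1 h2 ih1 ih2 =>
      cases hz with
      | app e1 e2 => exact V.app (ih1 e1) (ih2 e2)
      | node hn e1 e2 => exact V.node_TN e1 e2 ⟨_, .app h1 h2⟩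
    | @node n x y h =>
      obtain ⟨p, q, p', q', h1, h2, h3, h4, h5, h6⟩ := h
      obtain ⟨p'', e1, e2⟩ := TN.sims h3 (.app (.atom _) hz)
      obtain ⟨q'', f1, f2⟩ := TN.sims h4 (.app (.atom _) hz)
      exact V.node ⟨p, q, p'', q'', h1, h2, e1, f1, ih h5 e2, ih h6 f2⟩

theorem V.node_TT {d x u} (h : V d x u) : V (d + 1) x (D (D1 u) (D2 u)) :=
  V.node ⟨_, _, _, _, Red.refl _ _, Red.refl _ _, Red.rD1 _ _, Red.rD2 _ _,
    V.app (V.refl _ _) h, V.app (V.refl _ _) h⟩

theorem V.comp_TT : ∀ d {x z w}, V d x z → TT z w → V (d + 1) x w := by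
  intro d
  induction d with
  | zero =>
    intro x z w h hw
    cases h
    induction hw with
    | atom a => exact V.refl _ _
    | app _ _ ih1 ih2 => exact V.app ih1 ih2
    | node u => exact V.node_TT (V.refl _ _)
  | succ d ih =>
    intro x z w h hw
    obtain ⟨n, h⟩ := h
    induction h generalizing w with
    | atom n a =>
      cases hw with
      | atom => exact V.refl _ _
      | node => exact V.node_TT (V.refl _ _)
    | @app n x₁ y₁ x₂ y₂ h1 h2 ih1 ih2 =>
      cases hw with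
      | app e1 e2 => exact V.app (ih1 e1) (ih2 e2)
      | node => exact V.node_TT ⟨_, .app h1 h2⟩
    | @node n x y h =>
      obtain ⟨p, q, p', q', h1, h2, h3, h4, h5, h6⟩ := h
      obtain ⟨p'', e1, e2⟩ := TT.sims h3 (.app (.atom _) hw)
      obtain ⟨q'', f1, f2⟩ := TT.sims h4 (.app (.atom _) hw)
      exact V.node ⟨p, q, p'', q'', h1, h2, e1, f1, ih h5 e2, ih h6 f2⟩

end Pool.Agent.CLSP
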